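import Pool.Agent.W580.SH.Frame2
import Pool.Agent.H192R3.DMFinal

/-! Project SH: integer matrices with bounded full size minors. -/

namespace Pool.Agent.W580.SH

open Finset Matrix Pool.Agent.H192R3.DM

variable {m n : ℕ}

/-- cast of a rational vector -/
noncomputable def castV (x : Fin m → ℚ) : Fin m → ℝ := fun i => (x i : ℝ)

theorem castV_inj : Function.Injective (castV (m := m)) := by
  intro x y h
  funext i
  have := congrFun h i
  simp only [castV] at this
  exact_mod_cast this

theorem ts1_of_good (X : Finset (Fin m → ℚ)) (hX : Good X) :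
    TS1 ((X.image castV : Finset (Fin m → ℝ)) : Set (Fin m → ℝ)) := by
  intro k r c hc
  have h1 : ∀ j, ∃ x ∈ X, castV x = c j := by
    intro j
    have := hc j
    simpa using this
  choose x hx hxc using h1
  have h := hX (Fin k) r x hx
  have e : mn r c = (((Matrix.of fun a b => x b (r a)) : Matrix (Fin k) (Fin k) ℚ).det : ℝ) := by
    have h := (Rat.castHom ℝ).map_det ((Matrix.of fun a b => x b (r a)) : Matrix (Fin k) (Fin k) ℚ)
    have h2 : (((Matrix.of fun a b => x b (r a)) : Matrix (Fin k) (Fin k) ℚ).det : ℝ) =
      (Rat.castHom ℝ) (((Matrix.of fun a b => x b (r a)) : Matrix (Fin k) (Fin k) ℚ).det) := rfl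
    rw [h2, h]
    unfold mn
    congr 1
    ext a b
    simp only [Matrix.of_apply, RingHom.mapMatrix_apply, Matrix.map_apply]
    rw [← hxc b]
    rfl
  rw [e]
  exact_mod_cast h

/-- both bounds for rational sets -/
theorem card_good (X : Finset (Fin m → ℚ)) (hX : Good X) (hC : Cong X) :
    X.card ≤ m ^ 2 + m + 1 ∧ ((∃ x ∈ X, ∃ i, ∀ z : ℤ, x i ≠ z) → X.card ≤ m ^ 2 + m) := by
  have hts := ts1_of_good X hX
  have hcard : (X.image castV).card = X.card := Finset.card_image_of_injective _ castV_inj
  have hsup : ∀ x ∈ X.image castV, ∀ r, r ∉ (Finset.univ : Finset (Fin m)) → x r = 0 :=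
    fun x _ r hr => absurd (Finset.mem_univ r) hr
  have hdiff : ∀ x ∈ X.image castV, ∀ y ∈ X.image castV, ∀ r, ∃ n : ℤ, x r - y r = n := by
    intro x hx y hy r
    obtain ⟨x', hx', rfl⟩ := Finset.mem_image.1 hx
    obtain ⟨y', hy', rfl⟩ := Finset.mem_image.1 hy
    obtain ⟨z, hz⟩ := hC x' hx' y' hy' r
    refine ⟨z, ?_⟩
    simp only [castV]
    rw [← Rat.cast_sub, hz]
    simp
  constructor
  · have := main (Fin m) Finset.univ (X.image castV) hsup hdiff hts
    rw [hcard] at this
    simpa using this
  · rintro ⟨x, hx, i, hi⟩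
    have := main2 (Fin m) Finset.univ (X.image castV) hsup hdiff hts
      ⟨castV x, Finset.mem_image_of_mem _ hx, i, by
        intro n hn
        simp only [castV] at hn
        exact hi n (by exact_mod_cast hn)⟩
    rw [hcard] at this
    simpa using this

/-- **Bound on the number of columns** of an integer matrix with full size minors at most `Δ`. -/
theorem columns_le {Δ : ℕ} (hΔ : 1 ≤ Δ) (A : Matrix (Fin m) (Fin n) ℤ)
    (hinj : Function.Injective A.transpose)
    (hle : ∀ s : Fin m → Fin n, |(A.submatrix id s).det| ≤ (Δ : ℤ))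
    (s0 : Fin m → Fin n) (hs0 : |(A.submatrix id s0).det| = (Δ : ℤ)) :
    n ≤ (m ^ 2 + m) * Δ + 1 := by
  classical
  set B := A.submatrix id s0 with hB
  have h0 : B.det ≠ 0 := by
    intro h
    rw [h] at hs0
    simp at hs0
    omega
  -- the quotient group
  set f : (Fin m → ℤ) →ₗ[ℤ] (Fin m → ℤ) := Matrix.toLin' B with hf
  have hfinj : Function.Injective f := by
    rw [hf]
    intro x y hxy
    rw [Matrix.toLin'_apply, Matrix.toLin'_apply] at hxy
    exact Matrix.mulVec_injective_of_det_ne_zero h0 hxy
  set Q := (Fin m → ℤ) ⧸ (LinearMap.range f) with hQ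
  have hcard : Nat.card Q = Δ := by
    have h := Submodule.natAbs_det_equiv (LinearMap.range f) (LinearEquiv.ofInjective f hfinj)
    have h2 : ((LinearMap.range f).subtype ∘ₗ AddMonoidHom.toIntLinearMap
        ((LinearEquiv.ofInjective f hfinj : (Fin m → ℤ) ≃ₗ[ℤ] LinearMap.range f) :
          (Fin m → ℤ) →+ LinearMap.range f)) = f := by
      ext x : 2
      simp
    rw [h2, hf, LinearMap.det_toLin'] at h
    rw [hQ, ← h]
    have := hs0
    rw [Int.abs_eq_natAbs] at this
    exact_mod_cast this
  have hfin : Finite Q := Nat.finite_of_card_ne_zero (by rw [hcard]; omega)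
  haveI : Fintype Q := Fintype.ofFinite Q
  have hcard' : Fintype.card Q = Δ := by rw [← Nat.card_eq_fintype_card]; exact hcard
  have hG := good_coord A s0 h0 (fun s => by rw [hs0]; exact hle s)
  have hcinj : Function.Injective (coord A s0) := by
    intro j j' h
    apply hinj
    have h1 := mul_coord A s0 h0 j
    rw [h, mul_coord A s0 h0 j'] at h1
    funext x
    have := congrFun h1 x
    simp only [Matrix.transpose_apply]
    exact_mod_cast this.symm
  have key : ∀ b : Q, ((univ : Finset (Fin n)).filter
      (fun j => (Submodule.Quotient.mk (A.transpose j) : Q) = b)).card ≤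
      (m ^ 2 + m) + (if b = 0 then 1 else 0) := by
    intro b
    set W := (univ : Finset (Fin n)).filter
      (fun j => (Submodule.Quotient.mk (A.transpose j) : Q) = b) with hW
    have hc1 : (W.image (coord A s0)).card = W.card := Finset.card_image_of_injective _ hcinj
    have hgood := hG.mono (Finset.image_subset_image (Finset.subset_univ W))
    have hcong : Cong (W.image (coord A s0)) := by
      intro c hc c' hc' i
      obtain ⟨j, hj, rfl⟩ := Finset.mem_image.1 hc
      obtain ⟨j', hj', rfl⟩ := Finset.mem_image.1 hc'
      have e1 := (Finset.mem_filter.1 hj).2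
      have e2 := (Finset.mem_filter.1 hj').2
      have e3 : (Submodule.Quotient.mk (A.transpose j) : Q) =
        Submodule.Quotient.mk (A.transpose j') := by rw [e1, e2]
      rw [Submodule.Quotient.eq] at e3
      obtain ⟨z, hz⟩ := e3
      rw [hf, Matrix.toLin'_apply] at hz
      refine ⟨z i, ?_⟩
      have h1 : (toQ B) *ᵥ (coord A s0 j - coord A s0 j') = (toQ B) *ᵥ (fun i => (z i : ℚ)) := by
        rw [Matrix.mulVec_sub, mul_coord A s0 h0, mul_coord A s0 h0]
        funext x
        have := congrFun hz x
        simp only [Pi.sub_apply, Matrix.transpose_apply] at this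
        simp only [Pi.sub_apply, Matrix.mulVec, dotProduct, toQ, Matrix.map_apply] at this ⊢
        have h2 : ((A x j : ℚ) - (A x j' : ℚ)) = ((A x j - A x j' : ℤ) : ℚ) := by push_cast; ring
        rw [h2, ← this]
        push_cast
        simp
      have h2 : (toQ B).det ≠ 0 := by
        rw [toQ_det]; exact_mod_cast h0
      have h3 := Matrix.mulVec_injective_of_det_ne_zero h2 h1
      have := congrFun h3 i
      simpa using this
    obtain ⟨k1, k2⟩ := card_good _ hgood hcong
    rw [hc1] at k1 k2
    by_cases hb : b = 0
    · rw [if_pos hb]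
      exact k1
    · rw [if_neg hb, add_zero]
      rcases W.eq_empty_or_nonempty with hWe | ⟨j, hj⟩
      · rw [hWe]; simp
      · apply k2
        refine ⟨coord A s0 j, Finset.mem_image_of_mem _ hj, ?_⟩
        by_contra hcon
        push Not at hcon
        choose z hz using hcon
        apply hb
        rw [← (Finset.mem_filter.1 hj).2, Submodule.Quotient.mk_eq_zero]
        refine ⟨z, ?_⟩
        rw [hf, Matrix.toLin'_apply]
        have h1 := mul_coord A s0 h0 j
        funext x
        have h2 := congrFun h1 x
        simp only [Matrix.mulVec, dotProduct, toQ, Matrix.map_apply] at h2 ⊢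
        simp only [hz] at h2
        simp only [Matrix.transpose_apply]
        have h3 : ((∑ i, B x i * z i : ℤ) : ℚ) = (A x j : ℚ) := by
          rw [← h2]
          push_cast
          rfl
        exact_mod_cast h3
  have htot : (univ : Finset (Fin n)).card = ∑ b : Q, ((univ : Finset (Fin n)).filter
      (fun j => (Submodule.Quotient.mk (A.transpose j) : Q) = b)).card :=
    Finset.card_eq_sum_card_fiberwise (fun j _ => Finset.mem_univ _)
  rw [Finset.card_univ, Fintype.card_fin] at htot
  rw [htot]
  refine (Finset.sum_le_sum fun b _ => key b).trans ?_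
  rw [Finset.sum_add_distrib, Finset.sum_const, Finset.card_univ, hcard', smul_eq_mul,
    Finset.sum_ite_eq' ]
  simp
  ring_nf
  omega

end Pool.Agent.W580.SH
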