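import Mathlib

/-! Project SH (MP_ba6ea3_co): the shifted Heller constant is at most `m^2+m+1`.
Common definitions. -/

namespace Pool.Agent.W580.SH

open Finset

/-- the minor of the vectors `c` (columns) on the rows `r` -/
noncomputable def mn {R : Type} {k : ℕ} (r : Fin k → R) (c : Fin k → (R → ℝ)) : ℝ :=
  (Matrix.of fun a b => c b (r a) : Matrix (Fin k) (Fin k) ℝ).det

/-- all square minors of the set of vectors `S` lie in `[-1,1]` -/
def TS1 {R : Type} (S : Set (R → ℝ)) : Prop :=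
  ∀ (k : ℕ) (r : Fin k → R) (c : Fin k → (R → ℝ)), (∀ j, c j ∈ S) → |mn r c| ≤ 1

/-! ### case B (0/1 configurations) -/

/-- the matrix with first row all ones and the further rows `p j (r a)` -/
def oneMat {R : Type} {k : ℕ} (r : Fin k → R) (p : Fin (k + 1) → (R → ℤ)) :
    Matrix (Fin (k + 1)) (Fin (k + 1)) ℤ :=
  Matrix.of (Fin.cons (fun _ => 1) (fun a j => p j (r a)))

/-- key property: all simplices of `A` (projected to rows `r`) have volume 0 or 1, and the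
barycentric coordinates of `O` in a simplex of volume 1 have partial sums `≥ -θ`. -/
def KeyProp {R : Type} (A : Set (R → ℤ)) (O : R → ℝ) (θ : ℝ) : Prop :=
  ∀ (k : ℕ) (r : Fin k → R) (p : Fin (k + 1) → (R → ℤ)), (∀ j, p j ∈ A) →
    |(oneMat r p).det| ≤ 1 ∧
    ((oneMat r p).det ≠ 0 → ∀ w : Fin (k + 1) → ℝ, ∑ j, w j = 1 →
      (∀ a, ∑ j, w j * ((p j (r a) : ℤ) : ℝ) = O (r a)) →
      ∀ F : Finset (Fin (k + 1)), -θ ≤ ∑ j ∈ F, w j)

/-- hypotheses of the abstract theorem of case B -/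
structure HypB {R : Type} (I : Finset R) (A : Finset (R → ℤ)) (O : R → ℝ) (θ : ℝ) : Prop where
  pos : 0 < θ
  lt : θ < 1 / 2
  bin : ∀ a ∈ A, ∀ r, a r = 0 ∨ a r = 1
  supp : ∀ a ∈ A, ∀ r, r ∉ I → a r = 0
  O0 : ∀ r, 0 ≤ O r
  O1 : ∀ r, O r ≤ 1 / 2
  Oth : ∀ r ∈ I, O r = 0 ∨ θ ≤ O r
  key : KeyProp (A : Set (R → ℤ)) O θ

/-- `n` pairs `(u i, v i)` of elements of `A` that differ (within the rows `J`) only in row `l`,
with distinct restrictions to `J \ l`. -/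
def Pairs {R : Type} (A : Finset (R → ℤ)) (J : Finset R) (l : R) (n : ℕ)
    (u v : Fin n → (R → ℤ)) : Prop :=
  (∀ i, u i ∈ A ∧ v i ∈ A ∧ u i l = 1 ∧ v i l = 0 ∧ ∀ j ∈ J, j ≠ l → u i j = v i j) ∧
  (∀ i i', i ≠ i' → ∃ j ∈ J, j ≠ l ∧ u i j ≠ u i' j)

/-- `J` is stuck: in every direction `l ∈ J` there are at least three pairs -/
def Stuck {R : Type} (A : Finset (R → ℤ)) (J : Finset R) : Prop :=
  J.Nonempty ∧ ∀ l ∈ J, ∃ u v : Fin 3 → (R → ℤ), Pairs A J l 3 u v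

/-! ### case A (half integral) -/

/-- the star condition -/
def Star {R : Type} (D : Set (R → ℝ)) : Prop :=
  ∀ (k : ℕ) (r : Fin k → R) (p : Fin (k + 1) → (R → ℝ)), (∀ j, p j ∈ D) →
    ∑ j : Fin (k + 1), |mn r (fun b => p (j.succAbove b))| ≤ 2

/-- the bad configuration -/
def Bad {R : Type} (D : Set (R → ℝ)) : Prop :=
  ∃ x y z w : R → ℝ, x ∈ D ∧ y ∈ D ∧ z ∈ D ∧ w ∈ D ∧ x + y + z ∈ D ∧ x + y + w ∈ D ∧
    LinearIndependent ℝ ![x, y, z, w]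

/-- all vectors of `S` are congruent to `t` modulo 1, `t` is 0 or 1/2 in each row -/
def HalfCoset {R : Type} (S : Set (R → ℝ)) (t : R → ℝ) : Prop :=
  (∀ r, t r = 0 ∨ t r = 1 / 2) ∧ ∀ x ∈ S, ∀ r, ∃ n : ℤ, x r = t r + n

/-- pairs in direction `i` with values `τ`, `τ - 1` -/
def DSet {R : Type} [DecidableEq R] (S : Set (R → ℝ)) (i : R) (τ : ℝ) : Set (R → ℝ) :=
  {z | z i = 0 ∧ Function.update z i τ ∈ S ∧ Function.update z i (τ - 1) ∈ S}

/-- `S` contains the 24 vectors `±f_a ± v_k` -/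
def QS {R : Type} (S : Set (R → ℝ)) (f : Fin 2 → (R → ℝ)) (v : Fin 3 → (R → ℝ)) : Prop :=
  ∀ (a : Fin 2) (k : Fin 3) (σ τ : ℝ), (σ = 1 ∨ σ = -1) → (τ = 1 ∨ τ = -1) →
    σ • f a + τ • v k ∈ S

/-- the five vectors `f_0,f_1,v_0,v_1,v_2` -/
def fv {R : Type} (f : Fin 2 → (R → ℝ)) (v : Fin 3 → (R → ℝ)) : Fin 5 → (R → ℝ) :=
  ![f 0, f 1, v 0, v 1, v 2]

/-- context of the bad row argument: `K = range κ` is a set of five rows on which
`f_0,f_1,v_0,v_1,v_2` are independent, containing a row with `t = 1/2`. -/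
structure Ctx {R : Type} (S : Set (R → ℝ)) (t : R → ℝ) (f : Fin 2 → (R → ℝ))
    (v : Fin 3 → (R → ℝ)) (κ : Fin 5 → R) : Prop where
  ts : TS1 S
  co : HalfCoset S t
  qs : QS S f v
  det : mn κ (fv f v) ≠ 0
  half : ∃ a, t (κ a) = 1 / 2

/-- `x` agrees with `σ f_a + τ v_k` on the rows `κ` -/
def Pat {R : Type} (f : Fin 2 → (R → ℝ)) (v : Fin 3 → (R → ℝ)) (κ : Fin 5 → R)
    (x : R → ℝ) (a : Fin 2) (σ : ℤ) (k : Fin 3) (τ : ℤ) : Prop :=
  (σ = 1 ∨ σ = -1) ∧ (τ = 1 ∨ τ = -1) ∧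
    ∀ b, x (κ b) = ((σ : ℝ) • f a + (τ : ℝ) • v k) (κ b)

end Pool.Agent.W580.SH
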