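import Mathlib

/-! Project SH: the shifted Heller constant and the Heller constant, as in the problem. -/

namespace Pool.Agent.W580.SH

/-- totally 1-submodular: every square submatrix of every size has determinant in `[-1,1]` -/
def TotallyOneSubmodular {m n : ℕ} (M : Matrix (Fin m) (Fin n) ℝ) : Prop :=
  ∀ (k : ℕ) (r : Fin k → Fin m) (c : Fin k → Fin n), |(M.submatrix r c).det| ≤ 1

/-- the numbers `n` of columns of admissible pairs `(t, A)` -/
def ShiftedSizes (m : ℕ) : Set ℕ :=
  {n | ∃ (t : Fin m → ℝ) (A : Matrix (Fin m) (Fin n) ℝ),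
    (∀ i, 0 ≤ t i ∧ t i < 1) ∧ t ≠ 0 ∧ (∀ i j, A i j = -1 ∨ A i j = 0 ∨ A i j = 1) ∧
    Function.Injective A.transpose ∧
    TotallyOneSubmodular (Matrix.of fun i j => t i + A i j)}

/-- the shifted Heller constant `h_s(m)` -/
noncomputable def shiftedHeller (m : ℕ) : ℕ := sSup (ShiftedSizes m)

/-- the numbers `n` of columns of integer matrices with `m` rows, pairwise distinct columns, rank
`m` (some `m × m` minor is nonzero) and all `m × m` minors in `{-1,0,1}` -/
def HellerSizes (m : ℕ) : Set ℕ :=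
  {n | ∃ A : Matrix (Fin m) (Fin n) ℤ, Function.Injective A.transpose ∧
    (∃ s : Fin m → Fin n, (A.submatrix id s).det ≠ 0) ∧
    ∀ s : Fin m → Fin n, |(A.submatrix id s).det| ≤ 1}

/-- the Heller constant `h(1,m)` -/
noncomputable def hellerConst (m : ℕ) : ℕ := sSup (HellerSizes m)

/-- Heller's example -/
def S_LOW : Prop := ∀ m : ℕ, 1 ≤ m → m ^ 2 + m + 1 ∈ HellerSizes m

end Pool.Agent.W580.SH
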