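import Pool.Agent.W580.SH.Coset
import Pool.Agent.W580.SH.StmC

/-! Project SH: the bound for the shifted Heller constant. -/

namespace Pool.Agent.W580.SH

open Finset

theorem shifted_le (m n : ℕ) (hn : n ∈ ShiftedSizes m) : n ≤ m ^ 2 + m := by
  obtain ⟨t, A, ht, ht0, hA, hinj, hts⟩ := hn
  rcases Nat.eq_zero_or_pos n with h0 | hpos
  · rw [h0]; exact Nat.zero_le _
  classical
  set g : Fin n → (Fin m → ℝ) := fun j i => t i + A i j with hg
  have hginj : Function.Injective g := by
    intro j j' h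
    apply hinj
    funext i
    have := congrFun h i
    simp only [hg] at this
    simpa using this
  have hcard : (Finset.univ.image g).card = n := by
    rw [Finset.card_image_of_injective _ hginj]
    simp
  have hAint : ∀ i j, ∃ z : ℤ, A i j = z := by
    intro i j
    rcases hA i j with h | h | h
    · exact ⟨-1, by rw [h]; simp⟩
    · exact ⟨0, by rw [h]; simp⟩
    · exact ⟨1, by rw [h]; simp⟩
  have h1 : ∀ x ∈ Finset.univ.image g, ∀ r, r ∉ (Finset.univ : Finset (Fin m)) → x r = 0 :=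
    fun x _ r hr => absurd (Finset.mem_univ r) hr
  have h2 : ∀ x ∈ Finset.univ.image g, ∀ y ∈ Finset.univ.image g, ∀ r,
      ∃ n : ℤ, x r - y r = n := by
    intro x hx y hy r
    obtain ⟨j, -, rfl⟩ := Finset.mem_image.1 hx
    obtain ⟨j', -, rfl⟩ := Finset.mem_image.1 hy
    obtain ⟨z, hz⟩ := hAint r j
    obtain ⟨z', hz'⟩ := hAint r j'
    refine ⟨z - z', ?_⟩
    simp only [hg]
    rw [hz, hz']
    push_cast
    ring
  have h3 : TS1 ((Finset.univ.image g : Finset (Fin m → ℝ)) : Set (Fin m → ℝ)) := by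
    intro k r c hc
    have hc' : ∀ j, ∃ j', g j' = c j := by
      intro j
      have := hc j
      simpa using this
    choose s hs using hc'
    have := hts k r s
    have e : mn r c = ((Matrix.of fun i j => t i + A i j).submatrix r s).det := by
      unfold mn
      congr 1
      ext a b
      simp only [Matrix.of_apply, Matrix.submatrix_apply]
      rw [← hs b]
    rw [e]
    exact this
  have h4 : ∃ x ∈ Finset.univ.image g, ∃ r, ∀ n : ℤ, x r ≠ n := by
    obtain ⟨i, hi⟩ := Function.ne_iff.1 ht0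
    refine ⟨g ⟨0, hpos⟩, Finset.mem_image_of_mem _ (Finset.mem_univ _), i, ?_⟩
    intro z hz
    obtain ⟨a, ha⟩ := hAint i ⟨0, hpos⟩
    simp only [hg] at hz
    rw [ha] at hz
    have h5 : t i = ((z - a : ℤ) : ℝ) := by push_cast; linarith
    have h6 : 0 < t i := lt_of_le_of_ne (ht i).1 (Ne.symm hi)
    have h7 := (ht i).2
    rw [h5] at h6 h7
    have h8 : 0 < z - a := by exact_mod_cast h6
    have h9 : z - a < 1 := by exact_mod_cast h7
    omega
  have := main2 (Fin m) Finset.univ (Finset.univ.image g) h1 h2 h3 h4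
  rw [hcard] at this
  simpa using this

theorem heller_le (m n : ℕ) (hn : n ∈ HellerSizes m) : n ≤ m ^ 2 + m + 1 := by
  obtain ⟨A, hinj, ⟨s0, hs0⟩, hle⟩ := hn
  have h1 : |(A.submatrix id s0).det| = ((1 : ℕ) : ℤ) := by
    have h2 := hle s0
    have h3 : 0 < |(A.submatrix id s0).det| := abs_pos.2 hs0
    push_cast
    omega
  have := columns_le (Δ := 1) le_rfl A hinj (fun s => by simpa using hle s) s0 h1
  omega

theorem zero_mem_shifted (m : ℕ) (hm : 1 ≤ m) : 0 ∈ ShiftedSizes m := by
  refine ⟨fun _ => 1 / 2, Matrix.of fun _ j => Fin.elim0 j, fun i => by norm_num, ?_,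
    fun i j => Fin.elim0 j, fun j => Fin.elim0 j, ?_⟩
  · intro h
    have := congrFun h ⟨0, hm⟩
    simp at this
  · intro k r c
    rcases Nat.eq_zero_or_pos k with h0 | hpos
    · subst h0
      simp
    · exact Fin.elim0 (c ⟨0, hpos⟩)

theorem bdd_shifted (m : ℕ) : BddAbove (ShiftedSizes m) :=
  ⟨m ^ 2 + m, fun n hn => shifted_le m n hn⟩

theorem greatest (hL : S_LOW) (m : ℕ) (hm : 1 ≤ m) :
    IsGreatest (HellerSizes m) (m ^ 2 + m + 1) :=
  ⟨hL m hm, fun n hn => heller_le m n hn⟩

theorem all (hL : S_LOW) (m : ℕ) (hm : 1 ≤ m) :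
    IsGreatest (ShiftedSizes m) (shiftedHeller m) ∧
    IsGreatest (HellerSizes m) (hellerConst m) ∧
    hellerConst m = m ^ 2 + m + 1 ∧
    shiftedHeller m ≤ m ^ 2 + m ∧
    shiftedHeller m < hellerConst m := by
  have hg := greatest hL m hm
  have h1 : hellerConst m = m ^ 2 + m + 1 := hg.csSup_eq
  have h2 : IsGreatest (ShiftedSizes m) (shiftedHeller m) :=
    ⟨Nat.sSup_mem ⟨0, zero_mem_shifted m hm⟩ (bdd_shifted m),
      fun n hn => le_csSup (bdd_shifted m) hn⟩
  have h3 : shiftedHeller m ≤ m ^ 2 + m := shifted_le m _ h2.1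
  refine ⟨h2, ?_, h1, h3, ?_⟩
  · rw [h1]; exact hg
  · rw [h1]; omega

end Pool.Agent.W580.SH
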