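import Pool.Agent.W580.SH.Defs

/-! Project SH: statements of the subtasks for case A (half integral translation vector). -/

namespace Pool.Agent.W580.SH

open Finset

/-! ### linear algebra of minors -/

/-- minors of linear combinations -/
def S_LIN : Prop :=
  ∀ (R : Type) (k : ℕ) (r : Fin k → R) (c : Fin k → (R → ℝ)) (U : Matrix (Fin k) (Fin k) ℝ),
    mn r (fun b => ∑ a, U a b • c a) = mn r c * U.det

/-- block triangular minors -/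
def S_BLK : Prop :=
  ∀ (R : Type) (k m : ℕ) (κ : Fin k → R) (σ : Fin m → R) (c : Fin k → (R → ℝ))
    (g : Fin m → (R → ℝ)), (∀ b a, g b (κ a) = 0) →
    mn (Fin.append κ σ) (Fin.append c g) = mn κ c * mn σ g

/-- Cramer's rule for one and for two columns -/
def S_CRAM : Prop :=
  (∀ (R : Type) (k : ℕ) (ρ : Fin k → R) (b : Fin k → (R → ℝ)) (y : R → ℝ) (β : Fin k → ℝ)
    (j : Fin k), (∀ a, y (ρ a) = ∑ i, β i * b i (ρ a)) →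
    mn ρ (Function.update b j y) = β j * mn ρ b) ∧
  (∀ (R : Type) (k : ℕ) (ρ : Fin k → R) (b : Fin k → (R → ℝ)) (y y' : R → ℝ) (β β' : Fin k → ℝ)
    (i j : Fin k), i ≠ j → (∀ a, y (ρ a) = ∑ i, β i * b i (ρ a)) →
    (∀ a, y' (ρ a) = ∑ i, β' i * b i (ρ a)) →
    mn ρ (Function.update (Function.update b i y) j y') = (β i * β' j - β j * β' i) * mn ρ b)

/-- independent vectors have a nonzero minor of full size -/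
def S_MINOR : Prop :=
  ∀ (R : Type) [Fintype R] [DecidableEq R] (k : ℕ) (c : Fin k → (R → ℝ)),
    LinearIndependent ℝ c ↔ ∃ r : Fin k → R, mn r c ≠ 0

/-- the size of a nonzero minor is at most the number of rows -/
def S_KLE : Prop :=
  ∀ (R : Type) [Fintype R] [DecidableEq R] (I : Finset R) (k : ℕ) (ρ : Fin k → R)
    (b : Fin k → (R → ℝ)), (∀ j r, r ∉ I → b j r = 0) → mn ρ b ≠ 0 → k ≤ I.card

/-- a basis with a minor of maximal absolute value -/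
def S_BASIS : Prop :=
  ∀ (R : Type) [Fintype R] [DecidableEq R] (D : Finset (R → ℝ)),
    ∃ (k : ℕ) (ρ : Fin k → R) (b : Fin k → (R → ℝ)), (∀ j, b j ∈ D) ∧ mn ρ b ≠ 0 ∧
      (∀ y ∈ D, ∃ β : Fin k → ℝ, y = ∑ j, β j • b j) ∧
      ∀ (ρ' : Fin k → R) (b' : Fin k → (R → ℝ)), (∀ j, b' j ∈ D) → |mn ρ' b'| ≤ |mn ρ b|

/-- minors of a half integral coset are half integral -/
def S_HALF : Prop :=
  ∀ (R : Type) (S : Set (R → ℝ)) (t : R → ℝ), HalfCoset S t →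
    ∀ (k : ℕ) (r : Fin k → R) (c : Fin k → (R → ℝ)), (∀ j, c j ∈ S) → ∃ n : ℤ, 2 * mn r c = n

/-- the star condition for `DSet S i (1/2)` -/
def S_STARD : Prop :=
  ∀ (R : Type) [Fintype R] [DecidableEq R] (S : Set (R → ℝ)) (i : R), TS1 S →
    Star (DSet S i (1 / 2))

/-- the star condition in terms of coefficients -/
def S_STARB : Prop :=
  ∀ (R : Type) (D : Set (R → ℝ)), Star D →
    ∀ (k : ℕ) (ρ : Fin k → R) (b : Fin k → (R → ℝ)) (y : R → ℝ) (β : Fin k → ℝ),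
      (∀ j, b j ∈ D) → y ∈ D → (∀ a, y (ρ a) = ∑ i, β i * b i (ρ a)) →
      |mn ρ b| * (1 + ∑ j, |β j|) ≤ 2

/-- the star condition for the coordinates of a unit vector -/
def S_STARE : Prop :=
  ∀ (R : Type) (D : Set (R → ℝ)), Star D →
    ∀ (k : ℕ) (κ : Fin (k + 1) → R) (p : Fin (k + 1) → (R → ℝ)) (β : Fin (k + 1) → ℝ)
      (l : Fin (k + 1)), (∀ j, p j ∈ D) →
      (∀ a, (if a = l then (1 : ℝ) else 0) = ∑ i, β i * p i (κ a)) →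
      |mn κ p| * ∑ j, |β j| ≤ 2

/-! ### the counting theorem for good rows -/

/-- minor 1 -/
def S_AC1 : Prop :=
  ∀ (R : Type) [Fintype R] [DecidableEq R] (D : Finset (R → ℝ)) (t : R → ℝ),
    HalfCoset (D : Set (R → ℝ)) t → Star (D : Set (R → ℝ)) →
    ∀ (k : ℕ) (ρ : Fin k → R) (b : Fin k → (R → ℝ)), (∀ j, b j ∈ D) → |mn ρ b| = 1 →
      (∀ y ∈ D, ∃ β : Fin k → ℝ, y = ∑ j, β j • b j) → D.card ≤ 2 * k + 2

/-- no two independent four-circuits -/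
def S_SIX : Prop :=
  ∀ (R : Type) [Fintype R] [DecidableEq R] (D : Set (R → ℝ)) (t : R → ℝ),
    HalfCoset D t → Star D → ∀ x : Fin 6 → (R → ℝ), (∀ j, x j ∈ D) →
      -(x 0 + x 1 + x 2) ∈ D → -(x 3 + x 4 + x 5) ∈ D → ¬ LinearIndependent ℝ x

/-- maximal minor 1/2 -/
def S_AC2 : Prop :=
  ∀ (R : Type) [Fintype R] [DecidableEq R] (D : Finset (R → ℝ)) (t : R → ℝ),
    (∀ x ∈ D, -x ∈ D) → HalfCoset (D : Set (R → ℝ)) t → Star (D : Set (R → ℝ)) →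
    ¬ Bad (D : Set (R → ℝ)) →
    ∀ (k : ℕ) (ρ : Fin k → R) (b : Fin k → (R → ℝ)), (∀ j, b j ∈ D) → |mn ρ b| = 1 / 2 →
      (∀ b' : Fin k → (R → ℝ), (∀ j, b' j ∈ D) → |mn ρ b'| ≤ 1 / 2) →
      (∀ y ∈ D, ∃ β : Fin k → ℝ, y = ∑ j, β j • b j) → D.card ≤ 2 * k + 2

/-- the counting theorem for rows which are not bad -/
def S_AMAIN : Prop :=
  ∀ (R : Type) [Fintype R] [DecidableEq R] (I : Finset R) (D : Finset (R → ℝ)) (t : R → ℝ),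
    (∀ x ∈ D, ∀ r, r ∉ I → x r = 0) → (∀ x ∈ D, -x ∈ D) →
    HalfCoset (D : Set (R → ℝ)) t → Star (D : Set (R → ℝ)) → ¬ Bad (D : Set (R → ℝ)) →
    D.card ≤ 2 * I.card + 2

/-! ### bad rows -/

/-- coordinates on the rows `κ` -/
def Crd {R : Type} (f : Fin 2 → (R → ℝ)) (v : Fin 3 → (R → ℝ)) (κ : Fin 5 → R)
    (w : R → ℝ) (ξ : Fin 2 → ℝ) (η : Fin 3 → ℝ) : Prop :=
  ∀ b, w (κ b) = ∑ a, ξ a * f a (κ b) + ∑ k, η k * v k (κ b)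

/-- the 24 vectors `±f_a ± v_k` -/
def QV {R : Type} (f : Fin 2 → (R → ℝ)) (v : Fin 3 → (R → ℝ)) : Set (R → ℝ) :=
  {x | ∃ (a : Fin 2) (k : Fin 3) (σ τ : ℝ), (σ = 1 ∨ σ = -1) ∧ (τ = 1 ∨ τ = -1) ∧
    x = σ • f a + τ • v k}

/-- context, with a row `κ a0` with `t = 1/2` and `e = v 0 - v 1` on the rows `κ` -/
structure Ctx2 {R : Type} (S : Set (R → ℝ)) (t : R → ℝ) (f : Fin 2 → (R → ℝ))
    (v : Fin 3 → (R → ℝ)) (κ : Fin 5 → R) (a0 : Fin 5) : Prop where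
  c : Ctx S t f v κ
  ta : t (κ a0) = 1 / 2
  e : ∀ b, v 0 (κ b) - v 1 (κ b) = if b = a0 then 1 else 0

/-- type of an element of `DSet S (κ a0) (1/2)` -/
def PT {R : Type} (f : Fin 2 → (R → ℝ)) (v : Fin 3 → (R → ℝ)) (κ : Fin 5 → R)
    (z : R → ℝ) (a : Fin 2) (σ τ : ℤ) : Prop :=
  (σ = 1 ∨ σ = -1) ∧ (τ = 1 ∨ τ = -1) ∧
    ∀ b, z (κ b) = (σ : ℝ) * f a (κ b) + (τ : ℝ) / 2 * (v 0 (κ b) + v 1 (κ b))

/-- a bad row gives the context -/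
def S_CTX : Prop :=
  ∀ (R : Type) [Fintype R] [DecidableEq R] (S : Set (R → ℝ)) (t : R → ℝ) (i : R),
    (∀ x ∈ S, -x ∈ S) → TS1 S → HalfCoset S t → t i = 1 / 2 → Bad (DSet S i (1 / 2)) →
    ∃ (f : Fin 2 → (R → ℝ)) (v : Fin 3 → (R → ℝ)) (κ : Fin 5 → R), Ctx S t f v κ

def S_AB1 : Prop :=
  ∀ (R : Type) (S : Set (R → ℝ)) (t : R → ℝ) (f : Fin 2 → (R → ℝ)) (v : Fin 3 → (R → ℝ))
    (κ : Fin 5 → R), Ctx S t f v κ → |mn κ (fv f v)| = 1 / 4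

def S_CRD : Prop :=
  ∀ (R : Type) (f : Fin 2 → (R → ℝ)) (v : Fin 3 → (R → ℝ)) (κ : Fin 5 → R),
    mn κ (fv f v) ≠ 0 → ∀ w : R → ℝ, ∃ (ξ : Fin 2 → ℝ) (η : Fin 3 → ℝ), Crd f v κ w ξ η ∧
      ∀ (ξ' : Fin 2 → ℝ) (η' : Fin 3 → ℝ), Crd f v κ w ξ' η' → ξ' = ξ ∧ η' = η

def S_AB2A : Prop :=
  ∀ (R : Type) (S : Set (R → ℝ)) (t : R → ℝ) (f : Fin 2 → (R → ℝ)) (v : Fin 3 → (R → ℝ))
    (κ : Fin 5 → R), Ctx S t f v κ → ∀ (w : R → ℝ) (ξ : Fin 2 → ℝ) (η : Fin 3 → ℝ),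
    Crd f v κ w ξ η →
    (∀ q : Fin 4 → (R → ℝ), (∀ j, q j ∈ QV f v) →
      |mn κ (Fin.cons w q : Fin 5 → (R → ℝ))| ≤ 1) →
    (∀ k, |η k| ≤ 1) ∧ ∀ a i k, i ≠ k → |ξ a| + |η i| + |η k| ≤ 2

def S_AB2B : Prop :=
  ∀ (R : Type) (S : Set (R → ℝ)) (t : R → ℝ) (f : Fin 2 → (R → ℝ)) (v : Fin 3 → (R → ℝ))
    (κ : Fin 5 → R), Ctx S t f v κ → ∀ (w : R → ℝ) (ξ : Fin 2 → ℝ) (η : Fin 3 → ℝ),
    Crd f v κ w ξ η →
    (∀ q : Fin 4 → (R → ℝ), (∀ j, q j ∈ QV f v) →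
      ∃ n : ℤ, 2 * mn κ (Fin.cons w q : Fin 5 → (R → ℝ)) = n) →
    (∀ a, ∃ n : ℤ, ξ a = n) ∧ (∀ k, ∃ n : ℤ, η k = n) ∧
      ∃ n : ℤ, ξ 0 + ξ 1 + η 0 + η 1 + η 2 = 2 * n

/-- every element of `S` has a pattern -/
def S_AB3 : Prop :=
  ∀ (R : Type) (S : Set (R → ℝ)) (t : R → ℝ) (f : Fin 2 → (R → ℝ)) (v : Fin 3 → (R → ℝ))
    (κ : Fin 5 → R), Ctx S t f v κ → ∀ x ∈ S, ∃ a σ k τ, Pat f v κ x a σ k τ

/-- coordinates of the unit vectors -/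
def S_ABE : Prop :=
  ∀ (R : Type) (S : Set (R → ℝ)) (t : R → ℝ) (f : Fin 2 → (R → ℝ)) (v : Fin 3 → (R → ℝ))
    (κ : Fin 5 → R), Ctx S t f v κ → ∀ a0 : Fin 5, ∃ (ξ : Fin 2 → ℤ) (η : Fin 3 → ℤ),
    (∀ b, (if b = a0 then (1 : ℝ) else 0) =
      ∑ a, (ξ a : ℝ) * f a (κ b) + ∑ k, (η k : ℝ) * v k (κ b)) ∧
    ((∀ k, η k = 0) ∨
      ((∀ a, ξ a = 0) ∧ ∃ k, η k = 0 ∧ ∀ k', k' ≠ k → (η k' = 1 ∨ η k' = -1)))

/-- choice of the good row -/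
def S_AB4 : Prop :=
  ∀ (R : Type) (S : Set (R → ℝ)) (t : R → ℝ) (f : Fin 2 → (R → ℝ)) (v : Fin 3 → (R → ℝ))
    (κ : Fin 5 → R), Ctx S t f v κ → ∃ (v' : Fin 3 → (R → ℝ)) (a0 : Fin 5),
      Ctx2 S t f v' κ a0

/-- the deviation from the pattern is 0 or ±1 -/
def S_AB5 : Prop :=
  ∀ (R : Type) (S : Set (R → ℝ)) (t : R → ℝ) (f : Fin 2 → (R → ℝ)) (v : Fin 3 → (R → ℝ))
    (κ : Fin 5 → R), Ctx S t f v κ → ∀ x ∈ S, ∀ a σ k τ, Pat f v κ x a σ k τ → ∀ s,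
    ∃ n : ℤ, |n| ≤ 1 ∧ x s = ((σ : ℝ) • f a + (τ : ℝ) • v k) s + n

/-- compatibility of deviations -/
def S_AB6 : Prop :=
  ∀ (R : Type) (S : Set (R → ℝ)) (t : R → ℝ) (f : Fin 2 → (R → ℝ)) (v : Fin 3 → (R → ℝ))
    (κ : Fin 5 → R), Ctx S t f v κ → ∀ x ∈ S, ∀ x' ∈ S, ∀ a σ k τ a' σ' k' τ',
    Pat f v κ x a σ k τ → Pat f v κ x' a' σ' k' τ' → ∀ s,
    x s = ((σ : ℝ) • f a + (τ : ℝ) • v k) s + 1 →
    x' s = ((σ' : ℝ) • f a' + (τ' : ℝ) • v k') s + 1 →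
    (k = k' ∧ τ = τ') ∨ (a = a' ∧ σ = σ' ∧ ¬ (k = k' ∧ τ' = -τ))

/-- every element of `DSet` has a type -/
def S_PT : Prop :=
  ∀ (R : Type) [Fintype R] [DecidableEq R] (S : Set (R → ℝ)) (t : R → ℝ)
    (f : Fin 2 → (R → ℝ)) (v : Fin 3 → (R → ℝ))
    (κ : Fin 5 → R) (a0 : Fin 5), Ctx2 S t f v κ a0 → ∀ z ∈ DSet S (κ a0) (1 / 2),
    ∃ a σ τ, PT f v κ z a σ τ

/-- no parallelograms of elements of the same type -/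
def S_AB7 : Prop :=
  ∀ (R : Type) [Fintype R] [DecidableEq R] (S : Set (R → ℝ)) (t : R → ℝ)
    (f : Fin 2 → (R → ℝ)) (v : Fin 3 → (R → ℝ))
    (κ : Fin 5 → R) (a0 : Fin 5), Ctx2 S t f v κ a0 → ∀ z : Fin 4 → (R → ℝ),
    (∀ j, z j ∈ DSet S (κ a0) (1 / 2)) → ∀ a σ τ, (∀ j, PT f v κ (z j) a σ τ) →
    z 0 - z 1 = z 2 - z 3 → ¬ LinearIndependent ℝ ![z 0 - z 1, z 2 - z 0]

/-- types of elements which differ in a common row -/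
def S_AB8 : Prop :=
  ∀ (R : Type) [Fintype R] [DecidableEq R] (S : Set (R → ℝ)) (t : R → ℝ)
    (f : Fin 2 → (R → ℝ)) (v : Fin 3 → (R → ℝ))
    (κ : Fin 5 → R) (a0 : Fin 5), (∀ x ∈ S, -x ∈ S) → Ctx2 S t f v κ a0 →
    ∀ z1 ∈ DSet S (κ a0) (1 / 2), ∀ z2 ∈ DSet S (κ a0) (1 / 2), ∀ z3 ∈ DSet S (κ a0) (1 / 2),
    ∀ z4 ∈ DSet S (κ a0) (1 / 2), ∀ a σ τ a' σ' τ', PT f v κ z1 a σ τ → PT f v κ z2 a σ τ →
    PT f v κ z3 a' σ' τ' → PT f v κ z4 a' σ' τ' → ∀ s, z1 s ≠ z2 s → z3 s ≠ z4 s →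
    a = a' ∧ ((σ' = σ ∧ τ' = τ) ∨ (σ' = -σ ∧ τ' = -τ))

/-- the row `κ a0` is not bad -/
def S_ABFIN : Prop :=
  ∀ (R : Type) [Fintype R] [DecidableEq R] (S : Set (R → ℝ)) (t : R → ℝ)
    (f : Fin 2 → (R → ℝ)) (v : Fin 3 → (R → ℝ))
    (κ : Fin 5 → R) (a0 : Fin 5), (∀ x ∈ S, -x ∈ S) → Ctx2 S t f v κ a0 →
    ¬ Bad (DSet S (κ a0) (1 / 2))

/-- there is a row which is not bad -/
def S_ABAD : Prop :=
  ∀ (R : Type) [Fintype R] [DecidableEq R] (S : Set (R → ℝ)) (t : R → ℝ),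
    (∀ x ∈ S, -x ∈ S) → TS1 S → HalfCoset S t → (∃ i, t i = 1 / 2) →
    ∃ l, t l = 1 / 2 ∧ ¬ Bad (DSet S l (1 / 2))

end Pool.Agent.W580.SH
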