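import Pool.Agent.W580.SH.StmB
import Pool.Agent.W580.SH.StmA

/-! Project SH: the induction on the number of rows. -/

namespace Pool.Agent.W580.SH

open Finset

/-- zeroing a row keeps `TS1` -/
theorem ts1_update {R : Type} [DecidableEq R] (S : Set (R → ℝ)) (i : R) (h : TS1 S) :
    TS1 ((fun x => Function.update x i 0) '' S) := by
  intro k r c hc
  choose x hx hxc using hc
  by_cases hi : ∃ a, r a = i
  · obtain ⟨a, ha⟩ := hi
    have : mn r c = 0 := by
      unfold mn
      apply Matrix.det_eq_zero_of_row_eq_zero a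
      intro j
      simp only [Matrix.of_apply]
      rw [← hxc j, ha]
      simp
    rw [this]; simp
  · push Not at hi
    have : mn r c = mn r x := by
      unfold mn
      congr 1
      ext a j
      simp only [Matrix.of_apply]
      rw [← hxc j]
      simp [Function.update_of_ne (hi a)]
    rw [this]
    exact h k r x hx

/-- signs keep `TS1` -/
theorem ts1_neg {R : Type} (S : Set (R → ℝ)) (h : TS1 S) :
    TS1 {x | x ∈ S ∨ -x ∈ S} := by
  intro k r c hc
  have : ∀ j, ∃ s : ℝ, ∃ x ∈ S, |s| = 1 ∧ c j = s • x := by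
    intro j
    rcases hc j with h1 | h1
    · exact ⟨1, c j, h1, by simp, by simp⟩
    · exact ⟨-1, -c j, h1, by simp, by simp⟩
  choose s x hx hs hc' using this
  have e : mn r c = (∏ j, s j) * mn r x := by
    unfold mn
    rw [← Matrix.det_mul_row]
    congr 1
    ext a j
    simp only [Matrix.of_apply]
    rw [hc' j]
    simp
  rw [e, abs_mul, Finset.abs_prod]
  have : ∏ j, |s j| = 1 := Finset.prod_eq_one (fun j _ => hs j)
  rw [this, one_mul]
  exact h k r x hx

/-- the main theorem in set form -/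
def S_MAIN : Prop :=
  ∀ (R : Type) [Fintype R] [DecidableEq R] (I : Finset R) (S : Finset (R → ℝ)),
    (∀ x ∈ S, ∀ r, r ∉ I → x r = 0) → (∀ x ∈ S, ∀ y ∈ S, ∀ r, ∃ n : ℤ, x r - y r = n) →
    TS1 (S : Set (R → ℝ)) → S.card ≤ I.card ^ 2 + I.card + 1

/-- the induction step -/
theorem step_aux {R : Type} [Fintype R] [DecidableEq R] (hSt : S_STEP) (I : Finset R)
    (ih : ∀ J : Finset R, J.card < I.card → ∀ (S : Finset (R → ℝ)),
      (∀ x ∈ S, ∀ r, r ∉ J → x r = 0) → (∀ x ∈ S, ∀ y ∈ S, ∀ r, ∃ n : ℤ, x r - y r = n) →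
      TS1 (S : Set (R → ℝ)) → S.card ≤ J.card ^ 2 + J.card + 1)
    (S : Finset (R → ℝ)) (h1 : ∀ x ∈ S, ∀ r, r ∉ I → x r = 0)
    (h2 : ∀ x ∈ S, ∀ y ∈ S, ∀ r, ∃ n : ℤ, x r - y r = n)
    (h3 : TS1 (S : Set (R → ℝ))) (i : R) (hi : i ∈ I) (τ : ℝ)
    (h4 : ∀ x ∈ S, x i = τ ∨ x i = τ - 1)
    (hD : ∀ D : Finset (R → ℝ), (D : Set (R → ℝ)) = DSet (S : Set (R → ℝ)) i τ →
      D.card ≤ 2 * I.card) : S.card ≤ I.card ^ 2 + I.card + 1 := by
  obtain ⟨D, hD1, hD2⟩ := hSt R S i τ h4
  have hDc := hD D hD1
  have hcard : (I.erase i).card + 1 = I.card := Finset.card_erase_add_one hi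
  have := ih (I.erase i) (by omega) (S.image (fun x => Function.update x i 0)) ?_ ?_ ?_
  · rw [hD2]
    set n := (I.erase i).card
    rw [← hcard] at hDc ⊢
    nlinarith
  · intro x hx r hr
    obtain ⟨y, hy, rfl⟩ := Finset.mem_image.1 hx
    by_cases hri : r = i
    · subst hri; simp
    · simp only [Function.update_of_ne hri]
      exact h1 y hy r (fun h => hr (Finset.mem_erase.2 ⟨hri, h⟩))
  · intro x hx y hy r
    obtain ⟨x', hx', rfl⟩ := Finset.mem_image.1 hx
    obtain ⟨y', hy', rfl⟩ := Finset.mem_image.1 hy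
    by_cases hri : r = i
    · subst hri; exact ⟨0, by simp⟩
    · simp only [Function.update_of_ne hri]
      exact h2 x' hx' y' hy' r
  · rw [Finset.coe_image]
    exact ts1_update _ i h3

theorem frame (hH : S_HELLER) (hSt : S_STEP) (hN : S_NORM) (hK : S_KEY) (hB : S_BABS)
    (hSD : S_STARD) (hAM : S_AMAIN) (hAB : S_ABAD) : S_MAIN := by
  intro R _ _ I
  induction' hn : I.card using Nat.strong_induction_on with n ih generalizing I
  subst hn
  have ih' : ∀ J : Finset R, J.card < I.card → ∀ (S : Finset (R → ℝ)),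
      (∀ x ∈ S, ∀ r, r ∉ J → x r = 0) → (∀ x ∈ S, ∀ y ∈ S, ∀ r, ∃ n : ℤ, x r - y r = n) →
      TS1 (S : Set (R → ℝ)) → S.card ≤ J.card ^ 2 + J.card + 1 := by
    intro J hJ S h1 h2 h3
    exact ih J.card hJ J rfl S h1 h2 h3
  intro S0 g1 g2 g3
  obtain ⟨T, t, hTc, hT3, hT1, ht, htI, hTt⟩ := hN R I S0 g1 g2 g3
  rw [← hTc]
  have hT2 : ∀ x ∈ T, ∀ y ∈ T, ∀ r, ∃ n : ℤ, x r - y r = n := by
    intro x hx y hy r
    rcases eq_or_lt_of_le (ht r).1 with h0 | h0
    · obtain ⟨n, hn⟩ := (hTt x hx r).1 h0.symm
      obtain ⟨n', hn'⟩ := (hTt y hy r).1 h0.symm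
      exact ⟨n - n', by rw [hn, hn']; push_cast; ring⟩
    · rcases (hTt x hx r).2 h0 with h | h <;> rcases (hTt y hy r).2 h0 with h' | h'
      · exact ⟨0, by rw [h, h']; simp⟩
      · exact ⟨1, by rw [h, h']; simp⟩
      · exact ⟨-1, by rw [h, h']; simp⟩
      · exact ⟨0, by rw [h, h']; simp⟩
  by_cases hz : ∀ r, t r = 0
  · exact hH R I T hT1 (fun x hx r => (hTt x hx r).1 (hz r)) hT3
  by_cases hb : ∃ r, 0 < t r ∧ t r < 1 / 2
  · -- case B
    obtain ⟨r0, hr0, hr0'⟩ := hb
    obtain ⟨i, hi1, hi2⟩ := Finset.exists_min_image (Finset.univ.filter (fun r => 0 < t r)) t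
      ⟨r0, by simp [hr0]⟩
    have hi1 : 0 < t i := by simpa using hi1
    have hi2 : ∀ r, 0 < t r → t i ≤ t r := fun r hr => hi2 r (by simp [hr])
    have hiI : i ∈ I := by
      by_contra h
      have := htI i h
      linarith
    have hlt : t i < 1 / 2 := lt_of_le_of_lt (hi2 r0 hr0) hr0'
    refine step_aux hSt I ih' T hT1 hT2 hT3 i hiI (t i) (fun x hx => (hTt x hx i).2 hi1) ?_
    intro D hD
    obtain ⟨A, hA1, hA2, hA3, hA4⟩ := hK R I T t i (t i) D hT3 hT1 ht htI hTt hiI rfl hi1 hlt hD
    have hypB : HypB (I.erase i) A (Function.update t i 0) (t i) := by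
      refine ⟨hi1, hlt, hA2, hA3, ?_, ?_, ?_, hA4⟩
      · intro r
        by_cases hri : r = i
        · subst hri; simp
        · simp [Function.update_of_ne hri, (ht r).1]
      · intro r
        by_cases hri : r = i
        · subst hri; simp
        · rw [Function.update_of_ne hri]; exact (ht r).2
      · intro r hr
        have hri : r ≠ i := (Finset.mem_erase.1 hr).1
        rw [Function.update_of_ne hri]
        rcases eq_or_lt_of_le (ht r).1 with h0 | h0
        · exact Or.inl h0.symm
        · exact Or.inr (hi2 r h0)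
    have := hB R (I.erase i) A _ _ hypB
    have hcard : (I.erase i).card + 1 = I.card := Finset.card_erase_add_one hiI
    omega
  · -- case A
    push Not at hb hz
    have htt : ∀ r, t r = 0 ∨ t r = 1 / 2 := by
      intro r
      rcases eq_or_lt_of_le (ht r).1 with h0 | h0
      · exact Or.inl h0.symm
      · exact Or.inr (le_antisymm (ht r).2 (hb r h0))
    classical
    set S' : Finset (R → ℝ) := T ∪ T.image (fun x => -x) with hS'
    have memS' : ∀ x, x ∈ S' ↔ x ∈ T ∨ -x ∈ T := by
      intro x
      rw [hS', Finset.mem_union, Finset.mem_image]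
      constructor
      · rintro (h | ⟨y, hy, rfl⟩)
        · exact Or.inl h
        · exact Or.inr (by simpa using hy)
      · rintro (h | h)
        · exact Or.inl h
        · exact Or.inr ⟨-x, h, by simp⟩
    have hco : HalfCoset (S' : Set (R → ℝ)) t := by
      refine ⟨htt, ?_⟩
      intro x hx r
      have key : ∀ y ∈ T, (∃ n : ℤ, y r = t r + n) ∧ (∃ n : ℤ, -y r = t r + n) := by
        intro y hy
        rcases htt r with h0 | h0
        · obtain ⟨n, hn⟩ := (hTt y hy r).1 h0
          exact ⟨⟨n, by rw [hn, h0]; simp⟩, ⟨-n, by rw [hn, h0]; push_cast; ring⟩⟩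
        · rcases (hTt y hy r).2 (by rw [h0]; norm_num) with h | h
          · exact ⟨⟨0, by rw [h]; simp⟩, ⟨-1, by rw [h, h0]; push_cast; norm_num⟩⟩
          · exact ⟨⟨-1, by rw [h, h0]; push_cast; norm_num⟩, ⟨0, by rw [h, h0]; norm_num⟩⟩
      rcases (memS' x).1 (by exact_mod_cast hx) with h | h
      · exact (key x h).1
      · obtain ⟨n, hn⟩ := (key (-x) h).2
        exact ⟨n, by rw [← hn]; simp⟩
    have hts : TS1 (S' : Set (R → ℝ)) := by
      have := ts1_neg _ hT3
      convert this using 1
      ext x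
      simp [memS']
    have hsym : ∀ x ∈ (S' : Set (R → ℝ)), -x ∈ (S' : Set (R → ℝ)) := by
      intro x hx
      rw [Finset.mem_coe, memS'] at hx ⊢
      rw [neg_neg]
      exact hx.symm
    have hsup : ∀ x ∈ S', ∀ r, r ∉ I → x r = 0 := by
      intro x hx r hr
      rcases (memS' x).1 hx with h | h
      · exact hT1 x h r hr
      · have := hT1 (-x) h r hr
        simpa using this
    obtain ⟨i0, hi0⟩ := hz
    have hi0' : t i0 = 1 / 2 := (htt i0).resolve_left hi0
    obtain ⟨l, hl, hlb⟩ := hAB R (S' : Set (R → ℝ)) t hsym hts hco ⟨i0, hi0'⟩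
    have hlI : l ∈ I := by
      by_contra h
      have := htI l h
      rw [this] at hl; norm_num at hl
    have hle : T.card ≤ S'.card := Finset.card_le_card Finset.subset_union_left
    refine le_trans hle ?_
    refine step_aux hSt I ih' S' hsup ?_ hts l hlI (1 / 2) ?_ ?_
    · intro x hx y hy r
      obtain ⟨n, hn⟩ := hco.2 x (by exact_mod_cast hx) r
      obtain ⟨n', hn'⟩ := hco.2 y (by exact_mod_cast hy) r
      exact ⟨n - n', by rw [hn, hn']; push_cast; ring⟩
    · intro x hx
      rcases (memS' x).1 hx with h | h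
      · rcases (hTt x h l).2 (by rw [hl]; norm_num) with h' | h'
        · left; rw [h', hl]
        · right; rw [h', hl]
      · rcases (hTt (-x) h l).2 (by rw [hl]; norm_num) with h' | h'
        · right
          have : -x l = 1 / 2 := by rw [← hl]; simpa using h'
          linarith
        · left
          have : -x l = 1 / 2 - 1 := by rw [← hl]; simpa using h'
          linarith
    · intro D hD
      have hcard : (I.erase l).card + 1 = I.card := Finset.card_erase_add_one hlI
      have memD : ∀ z, z ∈ D ↔ z ∈ DSet (S' : Set (R → ℝ)) l (1 / 2) := by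
        intro z; rw [← hD]; simp
      have := hAM R (I.erase l) D (Function.update t l 0) ?_ ?_ ?_ ?_ ?_
      · omega
      · intro z hz r hr
        obtain ⟨hz0, hz1, hz2⟩ := (memD z).1 hz
        by_cases hrl : r = l
        · subst hrl; exact hz0
        · have := hsup _ (by exact_mod_cast hz1) r (fun h => hr (Finset.mem_erase.2 ⟨hrl, h⟩))
          rwa [Function.update_of_ne hrl] at this
      · intro z hz
        obtain ⟨hz0, hz1, hz2⟩ := (memD z).1 hz
        rw [memD]
        have e1 : Function.update (-z) l (1 / 2 : ℝ) = -(Function.update z l (1 / 2 - 1)) := by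
          ext r
          by_cases hrl : r = l
          · subst hrl; simp; norm_num
          · simp [Function.update_of_ne hrl]
        have e2 : Function.update (-z) l (1 / 2 - 1 : ℝ) = -(Function.update z l (1 / 2)) := by
          ext r
          by_cases hrl : r = l
          · subst hrl; simp; norm_num
          · simp [Function.update_of_ne hrl]
        refine ⟨by simp [hz0], ?_, ?_⟩
        · rw [e1]; exact hsym _ hz2
        · rw [e2]; exact hsym _ hz1
      · rw [hD]
        refine ⟨?_, ?_⟩
        · intro r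
          by_cases hrl : r = l
          · subst hrl; simp
          · rw [Function.update_of_ne hrl]; exact htt r
        · intro z hz r
          obtain ⟨hz0, hz1, hz2⟩ := hz
          by_cases hrl : r = l
          · subst hrl; exact ⟨0, by simp [hz0]⟩
          · obtain ⟨n, hn⟩ := hco.2 _ hz1 r
            rw [Function.update_of_ne hrl] at hn
            exact ⟨n, by rw [Function.update_of_ne hrl]; exact hn⟩
      · rw [hD]; exact hSD R _ l hts
      · rw [hD]; exact hlb

end Pool.Agent.W580.SH
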