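import Pool.Agent.W580.SH.PartA

/-! Project SH: rows whose deletion leaves an integral set. -/

namespace Pool.Agent.W580.SH

open Finset

/-- the star condition for `DSet S i τ`, any `τ` -/
theorem star_gen {R : Type} [DecidableEq R] (S : Set (R → ℝ)) (i : R) (τ : ℝ)
    (hS : TS1 S) : Star (DSet S i τ) := by
  intro k r p hp
  by_cases hr : ∃ a, r a = i
  · obtain ⟨a, ha⟩ := hr
    have h0 : ∀ j : Fin (k + 1), mn r (fun b => p (j.succAbove b)) = 0 := by
      intro j
      refine Matrix.det_eq_zero_of_row_eq_zero a fun b => ?_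
      show p (j.succAbove b) (r a) = 0
      rw [ha]
      exact (hp _).1
    simp only [h0, abs_zero, Finset.sum_const_zero]
    norm_num
  · push Not at hr
    set s : Fin (k + 1) → ℝ := fun j => mn r (fun b => p (j.succAbove b)) with hs
    have hdet : ∀ c : Fin (k + 1) → ℝ,
        mn (Fin.cons i r : Fin (k + 1) → R) (fun j => Function.update (p j) i (c j)) =
        ∑ j : Fin (k + 1), (-1) ^ (j : ℕ) * c j * s j := by
      intro c
      unfold mn
      rw [Matrix.det_succ_row_zero]
      refine Finset.sum_congr rfl fun j _ => ?_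
      congr 1
      · congr 1
        show Function.update (p j) i (c j) ((Fin.cons i r : Fin (k + 1) → R) 0) = c j
        rw [Fin.cons_zero, Function.update_self]
      · show _ = mn r (fun b => p (j.succAbove b))
        unfold mn
        congr 1
        ext a b
        show Function.update (p (j.succAbove b)) i (c (j.succAbove b))
          ((Fin.cons i r : Fin (k + 1) → R) a.succ) = p (j.succAbove b) (r a)
        rw [Fin.cons_succ, Function.update_of_ne (hr a)]
    have hle : ∀ c : Fin (k + 1) → ℝ, (∀ j, c j = τ ∨ c j = τ - 1) →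
        |∑ j : Fin (k + 1), (-1) ^ (j : ℕ) * c j * s j| ≤ 1 := by
      intro c hc
      rw [← hdet c]
      apply hS
      intro j
      rcases hc j with h | h <;> rw [h]
      · exact (hp j).2.1
      · exact (hp j).2.2
    set c1 : Fin (k + 1) → ℝ := fun j => if 0 ≤ (-1) ^ (j : ℕ) * s j then τ else τ - 1 with hc1
    set c2 : Fin (k + 1) → ℝ := fun j => if 0 ≤ (-1) ^ (j : ℕ) * s j then τ - 1 else τ with hc2
    have h1 := hle c1 (by
      intro j
      simp only [hc1]
      split_ifs
      · exact Or.inl rfl
      · exact Or.inr rfl)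
    have h2 := hle c2 (by
      intro j
      simp only [hc2]
      split_ifs
      · exact Or.inr rfl
      · exact Or.inl rfl)
    have hsum : (∑ j : Fin (k + 1), (-1) ^ (j : ℕ) * c1 j * s j) -
        (∑ j : Fin (k + 1), (-1) ^ (j : ℕ) * c2 j * s j) =
        ∑ j, |s j| := by
      rw [← Finset.sum_sub_distrib]
      refine Finset.sum_congr rfl fun j _ => ?_
      have h3 : |s j| = |(-1) ^ (j : ℕ) * s j| := by
        rw [abs_mul, abs_pow, abs_neg, abs_one, one_pow, one_mul]
      rw [h3]
      by_cases h : 0 ≤ (-1) ^ (j : ℕ) * s j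
      · simp only [hc1, hc2, if_pos h]
        rw [abs_of_nonneg h]
        ring
      · simp only [hc1, hc2, if_neg h]
        rw [abs_of_neg (not_le.1 h)]
        ring
    have := (abs_le.1 h1).2
    have := (abs_le.1 h2).1
    linarith

/-- minors of integral vectors are integers -/
theorem mn_integral {R : Type} {k : ℕ} (r : Fin k → R) (c : Fin k → (R → ℝ))
    (h : ∀ j a, ∃ n : ℤ, c j a = n) : ∃ n : ℤ, mn r c = n := by
  choose n hn using h
  refine ⟨(Matrix.of fun a b => n b (r a) : Matrix (Fin k) (Fin k) ℤ).det, ?_⟩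
  have h := (Int.castRingHom ℝ).map_det
    (Matrix.of fun a b => n b (r a) : Matrix (Fin k) (Fin k) ℤ)
  have h2 : ((Matrix.of fun a b => n b (r a) : Matrix (Fin k) (Fin k) ℤ).det : ℝ) =
    (Int.castRingHom ℝ) ((Matrix.of fun a b => n b (r a) : Matrix (Fin k) (Fin k) ℤ).det) := rfl
  rw [h2, h]
  unfold mn
  congr 1
  ext a b
  simp [hn]

/-- integral sets with the star condition are small -/
theorem int_bound {R : Type} [Fintype R] [DecidableEq R] (I : Finset R) (D : Finset (R → ℝ))
    (hI : ∀ x ∈ D, ∀ r, r ∉ I → x r = 0) (hint : ∀ x ∈ D, ∀ r, ∃ n : ℤ, x r = n)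
    (hst : Star (D : Set (R → ℝ))) : D.card ≤ 2 * I.card + 1 := by
  obtain ⟨k, ρ, b, hb, hne, hspan, -⟩ := basis R D
  have hk : k ≤ I.card := kle R I k ρ b (fun j r hr => hI (b j) (hb j) r hr) hne
  obtain ⟨N, hN⟩ := mn_integral ρ b (fun j a => hint (b j) (hb j) a)
  have hN0 : N ≠ 0 := by
    rintro rfl
    exact hne (by rw [hN]; simp)
  have hN1 : (1 : ℝ) ≤ |mn ρ b| := by
    rw [hN]
    exact_mod_cast Int.one_le_abs hN0
  -- coefficients
  have hcoef : ∀ y ∈ D, y = 0 ∨ ∃ j, y = b j ∨ y = -b j := by
    intro y hy
    obtain ⟨β, hβ⟩ := hspan y hy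
    have hβ' : ∀ a, y (ρ a) = ∑ i, β i * b i (ρ a) := by
      intro a
      rw [hβ]
      simp [Finset.sum_apply]
    have hs := starb R (D : Set (R → ℝ)) hst k ρ b y β (fun j => hb j) hy hβ'
    have hsum : 0 ≤ ∑ j, |β j| := Finset.sum_nonneg (fun j _ => abs_nonneg _)
    have hN2 : |mn ρ b| ≤ 2 := by nlinarith
    -- integrality of β * mn
    have hint2 : ∀ j, ∃ n : ℤ, β j * mn ρ b = n := by
      intro j
      rw [← cram.1 R k ρ b y β j hβ']
      apply mn_integral
      intro j' a
      by_cases h : j' = j
      · subst h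
        rw [Function.update_self]
        exact hint y hy a
      · rw [Function.update_of_ne h]
        exact hint (b j') (hb j') a
    by_cases hz : ∀ j, β j = 0
    · left
      rw [hβ]
      simp [hz]
    · right
      push Not at hz
      obtain ⟨j, hj⟩ := hz
      have hle : ∀ j', β j' ≠ 0 → 1 ≤ |β j'| * |mn ρ b| := by
        intro j' hj'
        obtain ⟨n, hn⟩ := hint2 j'
        rw [← abs_mul, hn]
        have : n ≠ 0 := by
          rintro rfl
          rcases mul_eq_zero.1 (by rw [hn]; simp : β j' * mn ρ b = 0) with h | h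
          · exact hj' h
          · exact hne h
        exact_mod_cast Int.one_le_abs this
      have h1 := hle j hj
      have h2 : |mn ρ b| + |mn ρ b| * ∑ j, |β j| ≤ 2 := by linarith
      have h3 : |β j| ≤ ∑ j, |β j| := Finset.single_le_sum (f := fun j => |β j|)
        (fun i _ => abs_nonneg _) (Finset.mem_univ j)
      have hpos : 0 < |mn ρ b| := by linarith
      have h4 : |β j| * |mn ρ b| ≤ |mn ρ b| * ∑ j, |β j| := by
        rw [mul_comm]
        exact mul_le_mul_of_nonneg_left h3 hpos.le
      have hN3 : |mn ρ b| = 1 := by linarith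
      have hbj : |β j| = 1 := by
        rw [hN3] at h1 h2
        nlinarith
      have hothers : ∀ j', j' ≠ j → β j' = 0 := by
        intro j' hj'
        by_contra hcon
        have h5 : |β j| + |β j'| ≤ ∑ j, |β j| := by
          rw [← Finset.add_sum_erase _ _ (Finset.mem_univ j)]
          have : |β j'| ≤ ∑ x ∈ Finset.univ.erase j, |β x| :=
            Finset.single_le_sum (f := fun j => |β j|)
              (fun i _ => abs_nonneg _) (Finset.mem_erase.2 ⟨hj', Finset.mem_univ _⟩)
          linarith
        have h6 := hle j' hcon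
        rw [hN3] at h2 h6
        linarith
      refine ⟨j, ?_⟩
      have hy' : y = β j • b j := by
        rw [hβ]
        rw [Finset.sum_eq_single j]
        · intro j' _ hj'
          rw [hothers j' hj']
          simp
        · intro h
          exact absurd (Finset.mem_univ _) h
      rcases (abs_eq (by norm_num : (0 : ℝ) ≤ 1)).1 hbj with h | h
      · left; rw [hy', h]; simp
      · right; rw [hy', h]; simp
  have hsub : D ⊆ {0} ∪ (Finset.univ.image b ∪ Finset.univ.image (fun j => -b j)) := by
    intro y hy
    rcases hcoef y hy with h | ⟨j, h | h⟩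
    · simp [h]
    · simp [h]
    · simp [h]
  have h1 := Finset.card_le_card hsub
  have h2 := Finset.card_union_le ({0} : Finset (R → ℝ))
    (Finset.univ.image b ∪ Finset.univ.image (fun j => -b j))
  have h3 := Finset.card_union_le (Finset.univ.image b) (Finset.univ.image (fun j => -b j))
  have h4 : (Finset.univ.image b).card ≤ k := by
    simpa using Finset.card_image_le (s := (Finset.univ : Finset (Fin k))) (f := b)
  have h5 : (Finset.univ.image (fun j => -b j)).card ≤ k := by
    simpa using Finset.card_image_le (s := (Finset.univ : Finset (Fin k))) (f := fun j => -b j)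
  simp only [Finset.card_singleton] at h2
  omega

end Pool.Agent.W580.SH
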