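import Pool.Agent.W580.SH.Main
import Pool.Agent.W580.SH.Int

/-! Project SH: the sharper bound for non-integral cosets. -/

namespace Pool.Agent.W580.SH

open Finset

/-- normalisation by negating rows, with the information that `t r = 0` only for integral rows -/
theorem norm2 (R : Type) [Fintype R] [DecidableEq R] (I : Finset R) (S : Finset (R → ℝ))
    (hI : ∀ x ∈ S, ∀ r, r ∉ I → x r = 0) (hc : ∀ x ∈ S, ∀ y ∈ S, ∀ r, ∃ n : ℤ, x r - y r = n)
    (hts : TS1 (S : Set (R → ℝ))) :
    ∃ (T : Finset (R → ℝ)) (t : R → ℝ), T.card = S.card ∧ TS1 (T : Set (R → ℝ)) ∧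
      (∀ x ∈ T, ∀ r, r ∉ I → x r = 0) ∧ (∀ r, 0 ≤ t r ∧ t r ≤ 1 / 2) ∧ (∀ r, r ∉ I → t r = 0) ∧
      (∀ x ∈ T, ∀ r, (t r = 0 → ∃ n : ℤ, x r = n) ∧ (0 < t r → x r = t r ∨ x r = t r - 1)) ∧
      (∀ r, t r = 0 → ∀ x ∈ S, ∃ n : ℤ, x r = n) := by
  classical
  rcases S.eq_empty_or_nonempty with rfl | ⟨x0, hx0⟩
  · refine ⟨∅, fun _ => 0, rfl, hts, by simp, ?_, by simp, by simp, by simp⟩
    intro r
    norm_num
  set f : R → ℝ := fun r => Int.fract (x0 r) with hf
  set ε : R → ℝ := fun r => if f r ≤ 1 / 2 then 1 else -1 with hε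
  set t : R → ℝ := fun r => if f r ≤ 1 / 2 then f r else 1 - f r with ht
  have hεabs : ∀ r, |ε r| = 1 := by
    intro r
    simp only [hε]
    split_ifs <;> simp
  have hεne : ∀ r, ε r ≠ 0 := by
    intro r h
    have := hεabs r
    rw [h] at this
    simp at this
  set g : (R → ℝ) → (R → ℝ) := fun x r => ε r * x r with hg
  have hginj : Function.Injective g := by
    intro x y hxy
    funext r
    have := congrFun hxy r
    simp only [hg] at this
    exact mul_left_cancel₀ (hεne r) this
  have hf0 : ∀ r, 0 ≤ f r := fun r => Int.fract_nonneg _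
  have hf1 : ∀ r, f r < 1 := fun r => Int.fract_lt_one _
  have ht01 : ∀ r, 0 ≤ t r ∧ t r ≤ 1 / 2 := by
    intro r
    have h0 := hf0 r
    have h1 := hf1 r
    simp only [ht]
    split_ifs with h
    · exact ⟨h0, h⟩
    · push Not at h
      constructor <;> linarith
  -- minors
  have hmn : ∀ (k : ℕ) (r : Fin k → R) (x : Fin k → (R → ℝ)),
      mn r (fun j => g (x j)) = (∏ a, ε (r a)) * mn r x := by
    intro k r x
    unfold mn
    rw [← Matrix.det_mul_column]
    rfl
  have hTS : TS1 ((S.image g : Finset (R → ℝ)) : Set (R → ℝ)) := by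
    intro k r c hcj
    have h1 : ∀ j, ∃ x ∈ S, g x = c j := by
      intro j
      have := hcj j
      simpa using this
    choose x hx hxc using h1
    have h2 : c = fun j => g (x j) := by
      funext j
      exact (hxc j).symm
    rw [h2, hmn, abs_mul, Finset.abs_prod]
    have h3 : ∏ a, |ε (r a)| = 1 := Finset.prod_eq_one (fun a _ => hεabs (r a))
    rw [h3, one_mul]
    exact hts k r x (fun j => hx j)
  have habs : ∀ x ∈ S, ∀ r, |x r| ≤ 1 := by
    intro x hx r
    have := hts 1 (fun _ => r) (fun _ => x) (fun _ => hx)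
    unfold mn at this
    simpa using this
  -- ε r * x r ≡ t r
  have hmod : ∀ x ∈ S, ∀ r, ∃ m : ℤ, ε r * x r = t r + m := by
    intro x hx r
    obtain ⟨n, hn⟩ := hc x hx x0 hx0 r
    have hfl : x0 r = ⌊x0 r⌋ + f r := (Int.floor_add_fract (x0 r)).symm
    simp only [hε, ht]
    split_ifs with h
    · refine ⟨n + ⌊x0 r⌋, ?_⟩
      push_cast
      linarith
    · refine ⟨-(n + ⌊x0 r⌋) - 1, ?_⟩
      push_cast
      linarith
  refine ⟨S.image g, t, Finset.card_image_of_injective _ hginj, hTS, ?_, ht01, ?_, ?_, ?_⟩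
  · intro y hy r hr
    obtain ⟨x, hx, rfl⟩ := Finset.mem_image.mp hy
    simp only [hg]
    rw [hI x hx r hr, mul_zero]
  · intro r hr
    have h0 : f r = 0 := by
      simp only [hf]
      rw [hI x0 hx0 r hr]
      simp
    simp only [ht, h0]
    norm_num
  · intro y hy r
    obtain ⟨x, hx, rfl⟩ := Finset.mem_image.mp hy
    obtain ⟨m, hm⟩ := hmod x hx r
    constructor
    · intro h0
      refine ⟨m, ?_⟩
      simp only [hg]
      rw [hm, h0, zero_add]
    · intro hpos
      simp only [hg]
      have h1 : |ε r * x r| ≤ 1 := by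
        rw [abs_mul, hεabs, one_mul]
        exact habs x hx r
      rw [hm] at h1 ⊢
      have h2 := abs_le.mp h1
      have h3 := (ht01 r).2
      have hmu : m < 1 := by
        have : (m : ℝ) < 1 := by linarith [h2.2]
        exact_mod_cast this
      have hml : -2 < m := by
        have : (-2 : ℝ) < m := by linarith [h2.1]
        exact_mod_cast this
      have hm2 : m = 0 ∨ m = -1 := by omega
      rcases hm2 with rfl | rfl
      · left
        simp
      · right
        push_cast
        ring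
  · intro r h0 x hx
    obtain ⟨m, hm⟩ := hmod x hx r
    rw [h0, zero_add] at hm
    have he : ε r = 1 ∨ ε r = -1 := by
      have := hεabs r
      exact (abs_eq (by norm_num)).1 this
    rcases he with he | he
    · exact ⟨m, by rw [← hm, he, one_mul]⟩
    · refine ⟨-m, ?_⟩
      push_cast
      rw [← hm, he]
      ring

/-- one step of the induction -/
theorem step_aux2 {R : Type} [Fintype R] [DecidableEq R] (I : Finset R)
    (ih : ∀ J : Finset R, J.card < I.card → ∀ (S : Finset (R → ℝ)),
      (∀ x ∈ S, ∀ r, r ∉ J → x r = 0) → (∀ x ∈ S, ∀ y ∈ S, ∀ r, ∃ n : ℤ, x r - y r = n) →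
      TS1 (S : Set (R → ℝ)) → (∃ x ∈ S, ∃ r, ∀ n : ℤ, x r ≠ n) → S.card ≤ J.card ^ 2 + J.card)
    (S : Finset (R → ℝ)) (hne : S.Nonempty) (h1 : ∀ x ∈ S, ∀ r, r ∉ I → x r = 0)
    (h2 : ∀ x ∈ S, ∀ y ∈ S, ∀ r, ∃ n : ℤ, x r - y r = n)
    (h3 : TS1 (S : Set (R → ℝ))) (i : R) (hi : i ∈ I) (τ : ℝ)
    (h4 : ∀ x ∈ S, x i = τ ∨ x i = τ - 1)
    (hD : ∀ D : Finset (R → ℝ), (D : Set (R → ℝ)) = DSet (S : Set (R → ℝ)) i τ →
      D.card ≤ 2 * I.card) : S.card ≤ I.card ^ 2 + I.card := by
  obtain ⟨D, hD1, hD2⟩ := step R S i τ h4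
  have hDc := hD D hD1
  have hcard : (I.erase i).card + 1 = I.card := Finset.card_erase_add_one hi
  set S' := S.image (fun x => Function.update x i 0) with hS'
  have g1 : ∀ x ∈ S', ∀ r, r ∉ I.erase i → x r = 0 := by
    intro x hx r hr
    obtain ⟨y, hy, rfl⟩ := Finset.mem_image.1 hx
    by_cases hri : r = i
    · subst hri; simp
    · simp only [Function.update_of_ne hri]
      exact h1 y hy r (fun h => hr (Finset.mem_erase.2 ⟨hri, h⟩))
  have g2 : ∀ x ∈ S', ∀ y ∈ S', ∀ r, ∃ n : ℤ, x r - y r = n := by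
    intro x hx y hy r
    obtain ⟨x', hx', rfl⟩ := Finset.mem_image.1 hx
    obtain ⟨y', hy', rfl⟩ := Finset.mem_image.1 hy
    by_cases hri : r = i
    · subst hri; exact ⟨0, by simp⟩
    · simp only [Function.update_of_ne hri]
      exact h2 x' hx' y' hy' r
  have g3 : TS1 (S' : Set (R → ℝ)) := by
    rw [hS', Finset.coe_image]
    exact ts1_update _ i h3
  by_cases hint : ∃ x ∈ S', ∃ r, ∀ n : ℤ, x r ≠ n
  · have := ih (I.erase i) (by omega) S' g1 g2 g3 hint
    rw [hD2]
    set n := (I.erase i).card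
    rw [← hcard] at hDc ⊢
    nlinarith
  · push Not at hint
    have hm := main R (I.erase i) S' g1 g2 g3
    have memD : ∀ z, z ∈ D ↔ z ∈ DSet (S : Set (R → ℝ)) i τ := by
      intro z; rw [← hD1]; simp
    have hDi : D.card ≤ 2 * (I.erase i).card + 1 := by
      refine int_bound (I.erase i) D ?_ ?_ ?_
      · intro z hz r hr
        obtain ⟨hz0, hz1, hz2⟩ := (memD z).1 hz
        by_cases hrl : r = i
        · subst hrl; exact hz0
        · have := h1 _ (by exact_mod_cast hz1) r (fun h => hr (Finset.mem_erase.2 ⟨hrl, h⟩))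
          rwa [Function.update_of_ne hrl] at this
      · intro z hz r
        obtain ⟨hz0, hz1, hz2⟩ := (memD z).1 hz
        by_cases hrl : r = i
        · subst hrl; exact ⟨0, by rw [hz0]; simp⟩
        · have hz1' : Function.update z i τ ∈ S := by exact_mod_cast hz1
          obtain ⟨n, hn⟩ := hint _ (Finset.mem_image_of_mem (fun x => Function.update x i 0) hz1') r
          simp only [Function.update_of_ne hrl] at hn
          exact ⟨n, hn⟩
      · rw [hD1]; exact star_gen _ i τ h3
    rw [hD2]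
    set n := (I.erase i).card
    rw [← hcard] at hDc ⊢
    nlinarith

/-- **Sharper bound** for non-integral cosets. -/
theorem main2 : ∀ (R : Type) [Fintype R] [DecidableEq R] (I : Finset R) (S : Finset (R → ℝ)),
    (∀ x ∈ S, ∀ r, r ∉ I → x r = 0) → (∀ x ∈ S, ∀ y ∈ S, ∀ r, ∃ n : ℤ, x r - y r = n) →
    TS1 (S : Set (R → ℝ)) → (∃ x ∈ S, ∃ r, ∀ n : ℤ, x r ≠ n) →
    S.card ≤ I.card ^ 2 + I.card := by
  intro R _ _ I
  induction' hn : I.card using Nat.strong_induction_on with n ih generalizing I
  subst hn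
  have ih' : ∀ J : Finset R, J.card < I.card → ∀ (S : Finset (R → ℝ)),
      (∀ x ∈ S, ∀ r, r ∉ J → x r = 0) → (∀ x ∈ S, ∀ y ∈ S, ∀ r, ∃ n : ℤ, x r - y r = n) →
      TS1 (S : Set (R → ℝ)) → (∃ x ∈ S, ∃ r, ∀ n : ℤ, x r ≠ n) →
      S.card ≤ J.card ^ 2 + J.card := by
    intro J hJ S h1 h2 h3 h4
    exact ih J.card hJ J rfl S h1 h2 h3 h4
  intro S0 g1 g2 g3 g4
  obtain ⟨T, t, hTc, hT3, hT1, ht, htI, hTt, htint⟩ := norm2 R I S0 g1 g2 g3
  rw [← hTc]
  have hTne : T.Nonempty := by
    rw [← Finset.card_pos, hTc, Finset.card_pos]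
    obtain ⟨x, hx, -⟩ := g4
    exact ⟨x, hx⟩
  have hT2 : ∀ x ∈ T, ∀ y ∈ T, ∀ r, ∃ n : ℤ, x r - y r = n := by
    intro x hx y hy r
    rcases eq_or_lt_of_le (ht r).1 with h0 | h0
    · obtain ⟨n, hn⟩ := (hTt x hx r).1 h0.symm
      obtain ⟨n', hn'⟩ := (hTt y hy r).1 h0.symm
      exact ⟨n - n', by rw [hn, hn']; push_cast; ring⟩
    · rcases (hTt x hx r).2 h0 with h | h <;> rcases (hTt y hy r).2 h0 with h' | h'
      · exact ⟨0, by rw [h, h']; simp⟩
      · exact ⟨1, by rw [h, h']; simp⟩
      · exact ⟨-1, by rw [h, h']; simp⟩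
      · exact ⟨0, by rw [h, h']; simp⟩
  have hz : ∃ r, t r ≠ 0 := by
    by_contra hcon
    push Not at hcon
    obtain ⟨x, hx, r, hr⟩ := g4
    obtain ⟨n, hn⟩ := htint r (hcon r) x hx
    exact hr n hn
  by_cases hb : ∃ r, 0 < t r ∧ t r < 1 / 2
  · -- case B
    obtain ⟨r0, hr0, hr0'⟩ := hb
    obtain ⟨i, hi1, hi2⟩ := Finset.exists_min_image (Finset.univ.filter (fun r => 0 < t r)) t
      ⟨r0, by simp [hr0]⟩
    have hi1 : 0 < t i := by simpa using hi1
    have hi2 : ∀ r, 0 < t r → t i ≤ t r := fun r hr => hi2 r (by simp [hr])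
    have hiI : i ∈ I := by
      by_contra h
      have := htI i h
      linarith
    have hlt : t i < 1 / 2 := lt_of_le_of_lt (hi2 r0 hr0) hr0'
    refine step_aux2 I ih' T hTne hT1 hT2 hT3 i hiI (t i) (fun x hx => (hTt x hx i).2 hi1) ?_
    intro D hD
    obtain ⟨A, hA1, hA2, hA3, hA4⟩ := key R I T t i (t i) D hT3 hT1 ht htI hTt hiI rfl hi1 hlt hD
    have hypB : HypB (I.erase i) A (Function.update t i 0) (t i) := by
      refine ⟨hi1, hlt, hA2, hA3, ?_, ?_, ?_, hA4⟩
      · intro r
        by_cases hri : r = i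
        · subst hri; simp
        · simp [Function.update_of_ne hri, (ht r).1]
      · intro r
        by_cases hri : r = i
        · subst hri; simp
        · rw [Function.update_of_ne hri]; exact (ht r).2
      · intro r hr
        have hri : r ≠ i := (Finset.mem_erase.1 hr).1
        rw [Function.update_of_ne hri]
        rcases eq_or_lt_of_le (ht r).1 with h0 | h0
        · exact Or.inl h0.symm
        · exact Or.inr (hi2 r h0)
    have := babs R (I.erase i) A _ _ hypB
    have hcard : (I.erase i).card + 1 = I.card := Finset.card_erase_add_one hiI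
    omega
  · -- case A
    push Not at hb
    have htt : ∀ r, t r = 0 ∨ t r = 1 / 2 := by
      intro r
      rcases eq_or_lt_of_le (ht r).1 with h0 | h0
      · exact Or.inl h0.symm
      · exact Or.inr (le_antisymm (ht r).2 (hb r h0))
    classical
    set S' : Finset (R → ℝ) := T ∪ T.image (fun x => -x) with hS'
    have memS' : ∀ x, x ∈ S' ↔ x ∈ T ∨ -x ∈ T := by
      intro x
      rw [hS', Finset.mem_union, Finset.mem_image]
      constructor
      · rintro (h | ⟨y, hy, rfl⟩)
        · exact Or.inl h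
        · exact Or.inr (by simpa using hy)
      · rintro (h | h)
        · exact Or.inl h
        · exact Or.inr ⟨-x, h, by simp⟩
    have hco : HalfCoset (S' : Set (R → ℝ)) t := by
      refine ⟨htt, ?_⟩
      intro x hx r
      have key : ∀ y ∈ T, (∃ n : ℤ, y r = t r + n) ∧ (∃ n : ℤ, -y r = t r + n) := by
        intro y hy
        rcases htt r with h0 | h0
        · obtain ⟨n, hn⟩ := (hTt y hy r).1 h0
          exact ⟨⟨n, by rw [hn, h0]; simp⟩, ⟨-n, by rw [hn, h0]; push_cast; ring⟩⟩
        · rcases (hTt y hy r).2 (by rw [h0]; norm_num) with h | h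
          · exact ⟨⟨0, by rw [h]; simp⟩, ⟨-1, by rw [h, h0]; push_cast; norm_num⟩⟩
          · exact ⟨⟨-1, by rw [h, h0]; push_cast; norm_num⟩, ⟨0, by rw [h, h0]; norm_num⟩⟩
      rcases (memS' x).1 (by exact_mod_cast hx) with h | h
      · exact (key x h).1
      · obtain ⟨n, hn⟩ := (key (-x) h).2
        exact ⟨n, by rw [← hn]; simp⟩
    have hts : TS1 (S' : Set (R → ℝ)) := by
      have := ts1_neg _ hT3
      convert this using 1
      ext x
      simp [memS']
    have hsym : ∀ x ∈ (S' : Set (R → ℝ)), -x ∈ (S' : Set (R → ℝ)) := by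
      intro x hx
      rw [Finset.mem_coe, memS'] at hx ⊢
      rw [neg_neg]
      exact hx.symm
    have hsup : ∀ x ∈ S', ∀ r, r ∉ I → x r = 0 := by
      intro x hx r hr
      rcases (memS' x).1 hx with h | h
      · exact hT1 x h r hr
      · have := hT1 (-x) h r hr
        simpa using this
    obtain ⟨i0, hi0⟩ := hz
    have hi0' : t i0 = 1 / 2 := (htt i0).resolve_left hi0
    obtain ⟨l, hl, hlb⟩ := abad R (S' : Set (R → ℝ)) t hsym hts hco ⟨i0, hi0'⟩
    have hlI : l ∈ I := by
      by_contra h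
      have := htI l h
      rw [this] at hl; norm_num at hl
    have hle : T.card ≤ S'.card := Finset.card_le_card Finset.subset_union_left
    refine le_trans hle ?_
    refine step_aux2 I ih' S' (hTne.mono Finset.subset_union_left) hsup ?_ hts l hlI (1 / 2) ?_ ?_
    · intro x hx y hy r
      obtain ⟨n, hn⟩ := hco.2 x (by exact_mod_cast hx) r
      obtain ⟨n', hn'⟩ := hco.2 y (by exact_mod_cast hy) r
      exact ⟨n - n', by rw [hn, hn']; push_cast; ring⟩
    · intro x hx
      rcases (memS' x).1 hx with h | h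
      · rcases (hTt x h l).2 (by rw [hl]; norm_num) with h' | h'
        · left; rw [h', hl]
        · right; rw [h', hl]
      · rcases (hTt (-x) h l).2 (by rw [hl]; norm_num) with h' | h'
        · right
          have : -x l = 1 / 2 := by rw [← hl]; simpa using h'
          linarith
        · left
          have : -x l = 1 / 2 - 1 := by rw [← hl]; simpa using h'
          linarith
    · intro D hD
      have hcard : (I.erase l).card + 1 = I.card := Finset.card_erase_add_one hlI
      have memD : ∀ z, z ∈ D ↔ z ∈ DSet (S' : Set (R → ℝ)) l (1 / 2) := by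
        intro z; rw [← hD]; simp
      have := amain R (I.erase l) D (Function.update t l 0) ?_ ?_ ?_ ?_ ?_
      · omega
      · intro z hz r hr
        obtain ⟨hz0, hz1, hz2⟩ := (memD z).1 hz
        by_cases hrl : r = l
        · subst hrl; exact hz0
        · have := hsup _ (by exact_mod_cast hz1) r (fun h => hr (Finset.mem_erase.2 ⟨hrl, h⟩))
          rwa [Function.update_of_ne hrl] at this
      · intro z hz
        obtain ⟨hz0, hz1, hz2⟩ := (memD z).1 hz
        rw [memD]
        have e1 : Function.update (-z) l (1 / 2 : ℝ) = -(Function.update z l (1 / 2 - 1)) := by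
          ext r
          by_cases hrl : r = l
          · subst hrl; simp; norm_num
          · simp [Function.update_of_ne hrl]
        have e2 : Function.update (-z) l (1 / 2 - 1 : ℝ) = -(Function.update z l (1 / 2)) := by
          ext r
          by_cases hrl : r = l
          · subst hrl; simp; norm_num
          · simp [Function.update_of_ne hrl]
        refine ⟨by simp [hz0], ?_, ?_⟩
        · rw [e1]; exact hsym _ hz2
        · rw [e2]; exact hsym _ hz1
      · rw [hD]
        refine ⟨?_, ?_⟩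
        · intro r
          by_cases hrl : r = l
          · subst hrl; simp
          · rw [Function.update_of_ne hrl]; exact htt r
        · intro z hz r
          obtain ⟨hz0, hz1, hz2⟩ := hz
          by_cases hrl : r = l
          · subst hrl; exact ⟨0, by simp [hz0]⟩
          · obtain ⟨n, hn⟩ := hco.2 _ hz1 r
            rw [Function.update_of_ne hrl] at hn
            exact ⟨n, by rw [Function.update_of_ne hrl]; exact hn⟩
      · rw [hD]; exact stard R _ l hts
      · rw [hD]; exact hlb

end Pool.Agent.W580.SH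

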