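import Pool.Agent.W580.SH.StmB
import Pool.Agent.W138.SH.Prism
import Pool.Agent.W479.SH.V2Tet
import Pool.Agent.W249.SH.T1F1
import Pool.Agent.W654.SH.Conf1
import Pool.Agent.W641.SH.Conf2
import Pool.Agent.W85.SH.Sep
import Pool.Agent.W481.SH.Bound
import Pool.Agent.W918.SH.MinOne
import Pool.Agent.W214.SH.NoQuad
import Pool.Agent.W193.SH.NOSTUCK
import Pool.Agent.W991.SH.Adj
import Pool.Agent.W575.SH.Tri
import Pool.Agent.W436.SH.Four
import Pool.Agent.W318.SH.Count
import Pool.Agent.W605.SH.BABS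

namespace Pool.Agent.W580.SH

theorem babs : S_BABS := by
  have hP : S_PRISM := Pool.Agent.W138.SH.main
  have hB : S_BOUND := Pool.Agent.W481.SH.main hP
  have hS : S_SEP := Pool.Agent.W85.SH.main
  have hM : S_MIN := Pool.Agent.W918.SH.min hS hB
  have hO : S_ONE := Pool.Agent.W918.SH.one hS hB
  have hV : S_V2 := Pool.Agent.W479.SH.v2
  have hT : S_TET := Pool.Agent.W479.SH.tet
  have hT1 : S_T1 := Pool.Agent.W249.SH.t1
  have hF1 : S_F1 := Pool.Agent.W249.SH.f1 hV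
  have h00 : S_C00 := Pool.Agent.W654.SH.c00
  have h10 : S_C10 := Pool.Agent.W654.SH.c10
  have hN : S_CN := Pool.Agent.W654.SH.cn
  have hR : S_R := Pool.Agent.W641.SH.r
  have hS3 : S_S3 := Pool.Agent.W641.SH.s3
  have hE5 : S_E5 := Pool.Agent.W641.SH.e5
  have hNS : S_NOSTUCK := Pool.Agent.W193.SH.main hS hB hM hO hV hT1 hR h00 h10 hN
  have hA : S_ADJ := Pool.Agent.W991.SH.main hS hB hO hF1
  have hTri : S_TRI := Pool.Agent.W575.SH.Tri.main hO hV hT hA
  have hF : S_FOUR := Pool.Agent.W436.SH.main hS hB hM hO hE5 hA hTri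
  have hQ : S_NOQUAD := Pool.Agent.W214.SH.main hO hS3
  have hC : S_COUNT := Pool.Agent.W318.SH.Count.main
  exact Pool.Agent.W605.SH.BABS.main hM hNS hF hQ hC

end Pool.Agent.W580.SH
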