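import Pool.Agent.W580.SH.PartA
import Pool.Agent.W580.SH.PartB
import Pool.Agent.W580.SH.Frame
import Pool.Agent.W563.SH.Heller
import Pool.Agent.W337.SH.Step
import Pool.Agent.W389.SH.Norm
import Pool.Agent.W315.SH.Key

namespace Pool.Agent.W580.SH

theorem heller : S_HELLER := Pool.Agent.W563.SH.Heller.main
theorem step : S_STEP := Pool.Agent.W337.SH.main
theorem norm : S_NORM := Pool.Agent.W389.SH.main
theorem key : S_KEY := Pool.Agent.W315.SHKey.main

theorem main : S_MAIN := frame heller step norm key babs stard amain abad

end Pool.Agent.W580.SH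

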