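import Pool.Agent.W580.SH.StmA
import Pool.Agent.W571.SH.Lin
import Pool.Agent.W12.SH.BLK
import Pool.Agent.W67.SH.Minor
import Pool.Agent.W179.SH.Basis
import Pool.Agent.W19.SH.STARD
import Pool.Agent.W12.SH.HALF
import Pool.Agent.W636.SH.StarB
import Pool.Agent.W762.SH.AC1
import Pool.Agent.W922.SH.SIX
import Pool.Agent.W393.SH.AC2
import Pool.Agent.W571.SH.AMain
import Pool.Agent.W688.SH.CTX
import Pool.Agent.W925.SH.AB1
import Pool.Agent.W351.SH.AB2
import Pool.Agent.W557.SH.AB3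
import Pool.Agent.W952.SH.AB4
import Pool.Agent.W239.SHA.AB5
import Pool.Agent.W405.SH.AB6
import Pool.Agent.W585.SH.PT
import Pool.Agent.W414.SH.AB7
import Pool.Agent.W369.SH.AB8
import Pool.Agent.W959.SH.ABFin

namespace Pool.Agent.W580.SH

theorem lin : S_LIN := Pool.Agent.W571.SH.lin
theorem cram : S_CRAM := Pool.Agent.W571.SH.cram
theorem blk : S_BLK := Pool.Agent.W12.SH.BLK.main
theorem minor : S_MINOR := Pool.Agent.W67.SH.minor
theorem kle : S_KLE := Pool.Agent.W67.SH.kle
theorem basis : S_BASIS := Pool.Agent.W179.SH.main minor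
theorem stard : S_STARD := Pool.Agent.W19.SH.STARD.main
theorem half : S_HALF := Pool.Agent.W12.SH.HALF.main
theorem starb : S_STARB := Pool.Agent.W636.SH.starb cram
theorem stare : S_STARE := Pool.Agent.W636.SH.stare
theorem ac1 : S_AC1 := Pool.Agent.W762.SH.AC1.main cram half starb
theorem six : S_SIX := Pool.Agent.W922.SH.main minor cram half starb stare
theorem ac2 : S_AC2 := Pool.Agent.W393.SH.AC2.main minor cram half starb six
theorem amain : S_AMAIN := Pool.Agent.W571.SH.main kle basis half starb ac1 ac2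
theorem ctx : S_CTX := Pool.Agent.W688.SH.CTX.main minor
theorem ab1 : S_AB1 := Pool.Agent.W925.SH.AB1.main lin half
theorem crd : S_CRD := Pool.Agent.W351.SH.crd
theorem ab2a : S_AB2A := Pool.Agent.W351.SH.a lin ab1
theorem ab2b : S_AB2B := Pool.Agent.W351.SH.b lin ab1
theorem ab3 : S_AB3 := Pool.Agent.W557.SH.ab3 half crd ab2a ab2b
theorem abe : S_ABE := Pool.Agent.W557.SH.abe half crd ab2a ab2b
theorem ab4 : S_AB4 := Pool.Agent.W952.SH.AB4.main abe
theorem ab5 : S_AB5 := Pool.Agent.W239.SHA.AB5.main lin blk ab1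
theorem ab6 : S_AB6 := Pool.Agent.W405.SH.AB6.main lin blk ab1 crd ab2a
theorem pt : S_PT := Pool.Agent.W585.SH.main ab3 crd
theorem ab7 : S_AB7 := Pool.Agent.W414.SH.main lin blk minor ab1
theorem ab8 : S_AB8 := Pool.Agent.W369.SH.main ab5 ab6
theorem abfin : S_ABFIN := Pool.Agent.W959.SH.main pt crd ab7 ab8
theorem abad : S_ABAD := Pool.Agent.W688.SH.ABAD.main ctx ab4 abfin

end Pool.Agent.W580.SH
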