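import Pool.Agent.W580.SH.Defs

/-! Project SH: statements of the subtasks for case B and the general frame. -/

namespace Pool.Agent.W580.SH

open Finset

/-- Heller's bound for totally unimodular sets -/
def S_HELLER : Prop :=
  ∀ (R : Type) [Fintype R] [DecidableEq R] (I : Finset R) (S : Finset (R → ℝ)),
    (∀ x ∈ S, ∀ r, r ∉ I → x r = 0) → (∀ x ∈ S, ∀ r, ∃ n : ℤ, x r = n) →
    TS1 (S : Set (R → ℝ)) → S.card ≤ I.card ^ 2 + I.card + 1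

/-- deletion of one row -/
def S_STEP : Prop :=
  ∀ (R : Type) [Fintype R] [DecidableEq R] (S : Finset (R → ℝ)) (i : R) (τ : ℝ),
    (∀ x ∈ S, x i = τ ∨ x i = τ - 1) →
    ∃ D : Finset (R → ℝ), (D : Set (R → ℝ)) = DSet (S : Set (R → ℝ)) i τ ∧
      S.card = (S.image (fun x => Function.update x i 0)).card + D.card

/-- normalisation by negating rows: `t` in `[0,1/2]` -/
def S_NORM : Prop :=
  ∀ (R : Type) [Fintype R] [DecidableEq R] (I : Finset R) (S : Finset (R → ℝ)),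
    (∀ x ∈ S, ∀ r, r ∉ I → x r = 0) → (∀ x ∈ S, ∀ y ∈ S, ∀ r, ∃ n : ℤ, x r - y r = n) →
    TS1 (S : Set (R → ℝ)) →
    ∃ (T : Finset (R → ℝ)) (t : R → ℝ), T.card = S.card ∧ TS1 (T : Set (R → ℝ)) ∧
      (∀ x ∈ T, ∀ r, r ∉ I → x r = 0) ∧ (∀ r, 0 ≤ t r ∧ t r ≤ 1 / 2) ∧ (∀ r, r ∉ I → t r = 0) ∧
      ∀ x ∈ T, ∀ r, (t r = 0 → ∃ n : ℤ, x r = n) ∧ (0 < t r → x r = t r ∨ x r = t r - 1)

/-- from minors to the key property -/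
def S_KEY : Prop :=
  ∀ (R : Type) [Fintype R] [DecidableEq R] (I : Finset R) (S : Finset (R → ℝ)) (t : R → ℝ)
    (i : R) (θ : ℝ) (D : Finset (R → ℝ)),
    TS1 (S : Set (R → ℝ)) → (∀ x ∈ S, ∀ r, r ∉ I → x r = 0) →
    (∀ r, 0 ≤ t r ∧ t r ≤ 1 / 2) → (∀ r, r ∉ I → t r = 0) →
    (∀ x ∈ S, ∀ r, (t r = 0 → ∃ n : ℤ, x r = n) ∧ (0 < t r → x r = t r ∨ x r = t r - 1)) →
    i ∈ I → t i = θ → 0 < θ → θ < 1 / 2 →
    (D : Set (R → ℝ)) = DSet (S : Set (R → ℝ)) i θ →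
    ∃ A : Finset (R → ℤ), A.card = D.card ∧ (∀ a ∈ A, ∀ r, a r = 0 ∨ a r = 1) ∧
      (∀ a ∈ A, ∀ r, r ∉ I.erase i → a r = 0) ∧
      KeyProp (A : Set (R → ℤ)) (Function.update t i 0) θ

/-- the abstract theorem of case B -/
def S_BABS : Prop :=
  ∀ (R : Type) [Fintype R] [DecidableEq R] (I : Finset R) (A : Finset (R → ℤ)) (O : R → ℝ)
    (θ : ℝ), HypB I A O θ → A.card ≤ 2 * I.card + 2

/-- six elements forming a prism in the rows `l`, `j`, `k`; `e`, `g` are the values of row `j` at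
the point 1 and of row `k` at the point 2 -/
def Prism {R : Type} (A : Finset (R → ℤ)) (l j k : R) (e g : ℤ) (u v : Fin 3 → (R → ℤ)) : Prop :=
  (∀ i, u i ∈ A ∧ v i ∈ A ∧ u i l = 1 ∧ v i l = 0 ∧ v i j = u i j ∧ v i k = u i k) ∧
  u 0 j = 1 - e ∧ u 0 k = 1 - g ∧ u 1 j = e ∧ u 1 k = 1 - g ∧ u 2 j = 1 - e ∧ u 2 k = g

/-- value of `O` in the orientation `e` -/
noncomputable def orient (e : ℤ) (o : ℝ) : ℝ := if e = 1 then o else 1 - o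

/-- inequalities from a prism -/
def S_PRISM : Prop :=
  ∀ (R : Type) [Fintype R] [DecidableEq R] (I : Finset R) (A : Finset (R → ℤ)) (O : R → ℝ)
    (θ : ℝ), HypB I A O θ → ∀ (l j k : R) (e g : ℤ) (u v : Fin 3 → (R → ℤ)),
    (e = 0 ∨ e = 1) → (g = 0 ∨ g = 1) → Prism A l j k e g u v →
    orient e (O j) + orient g (O k) ≤ O l + θ ∧ 1 - θ - O l ≤ orient e (O j) ∧
      1 - θ - O l ≤ orient g (O k)

/-- the fourth corner of a prism is empty -/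
def S_V2 : Prop :=
  ∀ (R : Type) [Fintype R] [DecidableEq R] (I : Finset R) (A : Finset (R → ℤ)) (O : R → ℝ)
    (θ : ℝ), HypB I A O θ → ∀ (l j k : R) (u v : Fin 3 → (R → ℤ)), Prism A l j k 1 1 u v →
    ∀ y ∈ A, ¬ (y j = 1 ∧ y k = 1)

/-- no full set of alternate vertices of a 3-cube -/
def S_TET : Prop :=
  ∀ (R : Type) [Fintype R] [DecidableEq R] (I : Finset R) (A : Finset (R → ℤ)) (O : R → ℝ)
    (θ : ℝ), HypB I A O θ → ∀ (l j k : R), ∀ x ∈ A, ∀ y ∈ A, ∀ z ∈ A, ∀ w ∈ A,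
    ¬ (x l = 0 ∧ x j = 0 ∧ x k = 0 ∧ y l = 0 ∧ y j = 1 ∧ y k = 1 ∧ z l = 1 ∧ z j = 0 ∧ z k = 1 ∧
      w l = 1 ∧ w j = 1 ∧ w k = 0)

/-- tightness: rows constant on the prism are constant on the points of type `u 0` -/
def S_T1 : Prop :=
  ∀ (R : Type) [Fintype R] [DecidableEq R] (I : Finset R) (A : Finset (R → ℤ)) (O : R → ℝ)
    (θ : ℝ), HypB I A O θ → ∀ (l j k s : R) (c : ℤ) (u v : Fin 3 → (R → ℤ)),
    Prism A l j k 1 1 u v → O l = θ → O j = θ → O k = θ → 0 < O s →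
    (∀ i, u i s = c ∧ v i s = c) → ∀ y ∈ A, y l = 1 → y j = 0 → y k = 0 → y s = c

/-- for `θ = 1/3`: rows constant on the prism are constant on all points with `y l = 1` -/
def S_F1 : Prop :=
  ∀ (R : Type) [Fintype R] [DecidableEq R] (I : Finset R) (A : Finset (R → ℤ)) (O : R → ℝ)
    (θ : ℝ), HypB I A O θ → θ = 1 / 3 → ∀ (l j k s : R) (c : ℤ) (u v : Fin 3 → (R → ℤ)),
    Prism A l j k 1 1 u v → O l = θ → O j = θ → O k = θ → 0 < O s →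
    (∀ i, u i s = c ∧ v i s = c) → ∀ y ∈ A, y l = 1 → y s = c

/-- configuration c00 -/
def S_C00 : Prop :=
  ∀ (R : Type) [Fintype R] [DecidableEq R] (I : Finset R) (A : Finset (R → ℤ)) (O : R → ℝ)
    (θ : ℝ), HypB I A O θ → ∀ (r : Fin 5 → R), (∀ a, O (r a) = θ) → ∀ p : Fin 6 → (R → ℤ),
    (∀ b, p b ∈ A) → (∀ a, p 0 (r a) = ![1, 1, 0, 0, 0] a) → (∀ a, p 1 (r a) = ![1, 0, 1, 0, 0] a) →
    (∀ a, p 2 (r a) = ![1, 0, 0, 0, 0] a) → (∀ a, p 3 (r a) = ![0, 0, 0, 0, 0] a) →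
    (∀ a, p 4 (r a) = ![0, 0, 0, 1, 0] a) → (∀ a, p 5 (r a) = ![0, 0, 0, 0, 1] a) → θ ≤ 1 / 3

/-- configuration c10 -/
def S_C10 : Prop :=
  ∀ (R : Type) [Fintype R] [DecidableEq R] (I : Finset R) (A : Finset (R → ℤ)) (O : R → ℝ)
    (θ : ℝ), HypB I A O θ → ∀ (r : Fin 5 → R), (∀ a, O (r a) = θ) → ∀ p : Fin 6 → (R → ℤ),
    (∀ b, p b ∈ A) → (∀ a, p 0 (r a) = ![0, 1, 0, 1, 0] a) → (∀ a, p 1 (r a) = ![0, 1, 0, 0, 1] a) →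
    (∀ a, p 2 (r a) = ![0, 1, 0, 0, 0] a) → (∀ a, p 3 (r a) = ![0, 0, 0, 0, 0] a) →
    (∀ a, p 4 (r a) = ![1, 0, 0, 1, 0] a) → (∀ a, p 5 (r a) = ![0, 0, 1, 1, 0] a) → θ ≤ 1 / 3

/-- configuration cN -/
def S_CN : Prop :=
  ∀ (R : Type) [Fintype R] [DecidableEq R] (I : Finset R) (A : Finset (R → ℤ)) (O : R → ℝ)
    (θ : ℝ), HypB I A O θ → ∀ (r : Fin 5 → R), (∀ a, O (r a) = θ) → ∀ p : Fin 6 → (R → ℤ),
    (∀ b, p b ∈ A) → (∀ a, p 0 (r a) = ![1, 1, 0, 1, 0] a) → (∀ a, p 1 (r a) = ![1, 0, 1, 0, 0] a) →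
    (∀ a, p 2 (r a) = ![1, 0, 0, 0, 0] a) → (∀ a, p 3 (r a) = ![0, 0, 0, 0, 0] a) →
    (∀ a, p 4 (r a) = ![0, 1, 0, 0, 1] a) → (∀ a, p 5 (r a) = ![0, 1, 0, 0, 0] a) → False

/-- configuration R -/
def S_R : Prop :=
  ∀ (R : Type) [Fintype R] [DecidableEq R] (I : Finset R) (A : Finset (R → ℤ)) (O : R → ℝ)
    (θ : ℝ), HypB I A O θ → ∀ (r : Fin 4 → R), (∀ a, O (r a) = θ) → ∀ p : Fin 5 → (R → ℤ),
    (∀ b, p b ∈ A) → (∀ a, p 0 (r a) = 0) →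
    (∀ b a, p (Fin.succ b) (r a) = if a = b then 1 else 0) → θ ≤ 1 / 3

/-- configuration S3: at most three pairs in a tie direction -/
def S_S3 : Prop :=
  ∀ (R : Type) [Fintype R] [DecidableEq R] (I : Finset R) (A : Finset (R → ℤ)) (O : R → ℝ)
    (θ : ℝ), HypB I A O θ → ∀ (r : Fin 4 → R), (∀ a, O (r a) = θ) → ∀ p : Fin 5 → (R → ℤ),
    (∀ b, p b ∈ A) → (∀ a, p 0 (r a) = ![1, 1, 0, 0] a) → (∀ a, p 1 (r a) = ![1, 0, 1, 0] a) →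
    (∀ a, p 2 (r a) = ![1, 0, 0, 1] a) → (∀ a, p 3 (r a) = ![1, 0, 0, 0] a) →
    (∀ a, p 4 (r a) = ![0, 0, 0, 0] a) → False

/-- configuration E5 -/
def S_E5 : Prop :=
  ∀ (R : Type) [Fintype R] [DecidableEq R] (I : Finset R) (A : Finset (R → ℤ)) (O : R → ℝ)
    (θ : ℝ), HypB I A O θ → θ = 1 / 3 → ∀ (r : Fin 5 → R), (∀ a, O (r a) = θ) →
    ∀ p : Fin 6 → (R → ℤ), (∀ b, p b ∈ A) →
    ((∀ a, p 0 (r a) = 0) ∨ (∀ a, p 0 (r a) = ![1, 1, 0, 0, 0] a)) →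
    ¬ (∀ b a, p (Fin.succ b) (r a) = if a = b then 1 else 0)

/-- separation -/
def S_SEP : Prop :=
  ∀ (R : Type) [Fintype R] [DecidableEq R] (J : Finset R) (A : Finset (R → ℤ)),
    (∀ a ∈ A, ∀ r, a r = 0 ∨ a r = 1) → ∀ (l : R) (u v : Fin 3 → (R → ℤ)), Pairs A J l 3 u v →
    ∀ j ∈ J, j ≠ l → (∃ i i', u i j ≠ u i' j) →
    ∃ k ∈ J, k ≠ l ∧ k ≠ j ∧ ∃ e g : ℤ, (e = 0 ∨ e = 1) ∧ (g = 0 ∨ g = 1) ∧
      ∃ σ : Equiv.Perm (Fin 3), Prism A l j k e g (u ∘ σ) (v ∘ σ)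

/-- consequences of the prism inequalities -/
def S_BOUND : Prop :=
  ∀ (R : Type) [Fintype R] [DecidableEq R] (I : Finset R) (A : Finset (R → ℤ)) (O : R → ℝ)
    (θ : ℝ), HypB I A O θ → ∀ (l j k : R) (e g : ℤ) (u v : Fin 3 → (R → ℤ)),
    l ∈ I → j ∈ I → k ∈ I → (e = 0 ∨ e = 1) → (g = 0 ∨ g = 1) → Prism A l j k e g u v →
    2 / 3 ≤ θ + O l ∧ O j + O k ≤ O l + θ ∧ θ ≤ O j ∧ θ ≤ O k ∧
      (O l = θ → O j = θ ∧ O k = θ ∧ e = 1 ∧ g = 1)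

/-- a stuck set contains a tie row -/
def S_MIN : Prop :=
  ∀ (R : Type) [Fintype R] [DecidableEq R] (I : Finset R) (A : Finset (R → ℤ)) (O : R → ℝ)
    (θ : ℝ), HypB I A O θ → ∀ J ⊆ I, Stuck A J → (∃ l ∈ J, O l = θ) ∧ (∀ l ∈ J, 0 < O l) ∧
      1 / 3 ≤ θ

/-- on a triple in a tie direction every non constant row is a tie row with exactly one 1 -/
def S_ONE : Prop :=
  ∀ (R : Type) [Fintype R] [DecidableEq R] (I : Finset R) (A : Finset (R → ℤ)) (O : R → ℝ)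
    (θ : ℝ), HypB I A O θ → ∀ J ⊆ I, ∀ l ∈ J, O l = θ → ∀ (u v : Fin 3 → (R → ℤ)),
    Pairs A J l 3 u v → ∀ j ∈ J, j ≠ l → (∃ i i', u i j ≠ u i' j) →
    O j = θ ∧ ∃ i, u i j = 1 ∧ ∀ i', i' ≠ i → u i' j = 0

/-- at most three pairs in a tie direction -/
def S_NOQUAD : Prop :=
  ∀ (R : Type) [Fintype R] [DecidableEq R] (I : Finset R) (A : Finset (R → ℤ)) (O : R → ℝ)
    (θ : ℝ), HypB I A O θ → ∀ J ⊆ I, ∀ l ∈ J, O l = θ →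
    ¬ ∃ u v : Fin 4 → (R → ℤ), Pairs A J l 4 u v

/-- no stuck set for `θ > 1/3` -/
def S_NOSTUCK : Prop :=
  ∀ (R : Type) [Fintype R] [DecidableEq R] (I : Finset R) (A : Finset (R → ℤ)) (O : R → ℝ)
    (θ : ℝ), HypB I A O θ → ∀ J ⊆ I, Stuck A J → θ ≤ 1 / 3

/-- for `θ = 1/3`: a tie row `s` is non constant on a triple of the tie row `l` iff some element
of `A` has the value 1 in both rows -/
def S_ADJ : Prop :=
  ∀ (R : Type) [Fintype R] [DecidableEq R] (I : Finset R) (A : Finset (R → ℤ)) (O : R → ℝ)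
    (θ : ℝ), HypB I A O θ → θ = 1 / 3 → ∀ J ⊆ I, Stuck A J → ∀ l ∈ J, O l = θ → ∀ s ∈ J, O s = θ →
    s ≠ l → ∀ (u v : Fin 3 → (R → ℤ)), Pairs A J l 3 u v →
    ((∃ i i', u i s ≠ u i' s) ↔ ∃ y ∈ A, y l = 1 ∧ y s = 1)

/-- for `θ = 1/3`: no triangles -/
def S_TRI : Prop :=
  ∀ (R : Type) [Fintype R] [DecidableEq R] (I : Finset R) (A : Finset (R → ℤ)) (O : R → ℝ)
    (θ : ℝ), HypB I A O θ → θ = 1 / 3 → ∀ J ⊆ I, Stuck A J → ∀ l ∈ J, O l = θ → ∀ s ∈ J, O s = θ →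
    ∀ q ∈ J, O q = θ → l ≠ s → l ≠ q → s ≠ q →
    ¬ ((∃ y ∈ A, y l = 1 ∧ y s = 1) ∧ (∃ y ∈ A, y l = 1 ∧ y q = 1) ∧ (∃ y ∈ A, y s = 1 ∧ y q = 1))

/-- for `θ = 1/3`: a stuck set has exactly four tie rows -/
def S_FOUR : Prop :=
  ∀ (R : Type) [Fintype R] [DecidableEq R] (I : Finset R) (A : Finset (R → ℤ)) (O : R → ℝ)
    (θ : ℝ), HypB I A O θ → θ = 1 / 3 → ∀ J ⊆ I, Stuck A J →
    ∃ K : Finset R, K.card = 4 ∧ ∀ r, r ∈ K ↔ r ∈ J ∧ O r = θ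

/-- the counting argument -/
def S_COUNT : Prop :=
  ∀ (R : Type) [Fintype R] [DecidableEq R] (I : Finset R) (A : Finset (R → ℤ)) (P : R → Prop)
    [DecidablePred P],
    (∀ a ∈ A, ∀ r, a r = 0 ∨ a r = 1) → (∀ a ∈ A, ∀ r, r ∉ I → a r = 0) →
    (∀ J ⊆ I, Stuck A J → (J.filter P).card = 4 ∧
      ∀ l ∈ J, P l → ¬ ∃ u v : Fin 4 → (R → ℤ), Pairs A J l 4 u v) →
    A.card ≤ 2 * I.card + 2

end Pool.Agent.W580.SH
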